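import Pool.Agent.helper42.CQ.SpecC

/-!
# Row cq:BRK (MP_ba8873_co): the kernel of the births
-/

set_option autoImplicit false

namespace Pool.Agent.helper42.CQ

open Finset Pool.Agent.helper24.CG

theorem BRK_gain_pos {N : ℕ} (b m : ℕ) (S : ES N) (H : List (ES N)) : 0 < gain b m S H := by
  unfold gain
  apply List.prod_pos
  intro x hx
  obtain ⟨E, _, rfl⟩ := List.mem_map.1 hx
  have : (0 : ℝ) ≤ (b : ℝ) * ((E ∩ S).card : ℝ) / (m : ℝ) := by positivity
  linarith

theorem BRK_ind {N : ℕ} (V : Finset (Fin N)) (B : Finset (Fin N)) (x : ℝ) :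
    ∑ B' : Finset (Fin N), ∑ v ∈ V, (if insert v B = B' then x else 0) = (V.card : ℝ) * x := by
  rw [sum_comm]
  have : ∀ v ∈ V, ∑ B' : Finset (Fin N), (if insert v B = B' then x else 0) = x := by
    intro v _
    rw [sum_ite_eq]
    simp
  rw [sum_congr rfl this, sum_const, nsmul_eq_mul]

theorem BRK_single {N : ℕ} (V : Finset (Fin N)) (B : Finset (Fin N)) (x : ℝ) (hx : 0 ≤ x)
    (v : Fin N) (hv : v ∈ V) :
    x ≤ ∑ u ∈ V, (if insert u B = insert v B then x else 0) := by
  have := single_le_sum (f := fun u => (if insert u B = insert v B then x else 0))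
    (fun u _ => by show 0 ≤ (if insert u B = insert v B then x else 0); split_ifs <;> simp [hx]) hv
  simpa using this

theorem BRK_exp (N m b q p : ℕ) : Real.exp (-kF N m b q p) =
    (6 * (m : ℝ) * (q : ℝ) ^ 2 + 3 * ((q : ℝ) + 1) * (nn N m b q p : ℝ) + 1)⁻¹ := by
  unfold kF
  rw [Real.exp_neg, Real.exp_log (by positivity)]

theorem BRK_verts {N m : ℕ} {H : List (ES N)} (hH : Hist N m H) (E : ES N) (hE : E ∈ H) :
    (verts E).card ≤ 2 * m := by
  obtain ⟨h1, _, h3⟩ := hH.mem E hE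
  unfold verts
  calc (E.biUnion id).card ≤ ∑ e ∈ E, (id e).card := card_biUnion_le
    _ = ∑ _e ∈ E, 2 := by
        apply sum_congr rfl
        intro e he
        exact (mem_powersetCard.1 (h1 he)).2
    _ = E.card * 2 := by rw [sum_const, smul_eq_mul]
    _ ≤ 2 * m := by omega

open Classical in
theorem BRK_V2 (hHLN : HLN_stmt) {N m : ℕ} {H : List (ES N)} (hH : Hist N m H)
    (B : Finset (Fin N)) (q : ℕ) (hB : B.card ≤ q) :
    ((univ : Finset (Fin N)).filter (fun v => ∃ E ∈ H, (∃ e ∈ E, e ∈ ed B) ∧ v ∈ verts E)).card ≤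
      2 * m * q ^ 2 := by
  obtain ⟨_, hnd, hs, _⟩ := hHLN N m H hH
  have hsub : (univ : Finset (Fin N)).filter
      (fun v => ∃ E ∈ H, (∃ e ∈ E, e ∈ ed B) ∧ v ∈ verts E) ⊆
      (H.toFinset.filter (fun E => ∃ e ∈ E, e ∈ ed B)).biUnion verts := by
    intro v hv
    obtain ⟨E, hE, he, hvE⟩ := (mem_filter.1 hv).2
    rw [mem_biUnion]
    exact ⟨E, mem_filter.2 ⟨List.mem_toFinset.2 hE, he⟩, hvE⟩
  have hcnt : (H.toFinset.filter (fun E => ∃ e ∈ E, e ∈ ed B)).card ≤ (ed B).card := by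
    calc (H.toFinset.filter (fun E => ∃ e ∈ E, e ∈ ed B)).card
        = ∑ _E ∈ H.toFinset.filter (fun E => ∃ e ∈ E, e ∈ ed B), 1 := by simp
      _ ≤ ∑ E ∈ H.toFinset.filter (fun E => ∃ e ∈ E, e ∈ ed B), (E ∩ ed B).card := by
          apply sum_le_sum
          intro E hE
          obtain ⟨e, he, heB⟩ := (mem_filter.1 hE).2
          exact card_pos.2 ⟨e, mem_inter.2 ⟨he, heB⟩⟩
      _ ≤ ∑ E ∈ H.toFinset, (E ∩ ed B).card :=
          sum_le_sum_of_subset (filter_subset _ _)
      _ = (H.map fun E => (E ∩ ed B).card).sum := by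
          rw [List.sum_toFinset _ hnd]
      _ ≤ (ed B).card := hs (ed B)
  have hed : (ed B).card ≤ q ^ 2 := by
    unfold ed
    rw [card_powersetCard, Nat.choose_two_right]
    calc B.card * (B.card - 1) / 2 ≤ B.card * (B.card - 1) := Nat.div_le_self _ _
      _ ≤ q * q := Nat.mul_le_mul hB ((Nat.sub_le _ _).trans hB)
      _ = q ^ 2 := by ring
  calc ((univ : Finset (Fin N)).filter
      (fun v => ∃ E ∈ H, (∃ e ∈ E, e ∈ ed B) ∧ v ∈ verts E)).card
      ≤ ((H.toFinset.filter (fun E => ∃ e ∈ E, e ∈ ed B)).biUnion verts).card :=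
        card_le_card hsub
    _ ≤ ∑ E ∈ H.toFinset.filter (fun E => ∃ e ∈ E, e ∈ ed B), (verts E).card := card_biUnion_le
    _ ≤ ∑ _E ∈ H.toFinset.filter (fun E => ∃ e ∈ E, e ∈ ed B), 2 * m := by
        apply sum_le_sum
        intro E hE
        exact BRK_verts hH E (List.mem_toFinset.1 (mem_filter.1 hE).1)
    _ = (H.toFinset.filter (fun E => ∃ e ∈ E, e ∈ ed B)).card * (2 * m) := by
        rw [sum_const, smul_eq_mul]
    _ ≤ q ^ 2 * (2 * m) := Nat.mul_le_mul_right _ (hcnt.trans hed)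
    _ = 2 * m * q ^ 2 := by ring

open Classical in
theorem BRK (hHLN : HLN_stmt) : BRK_stmt := by
  intro N m b q p c H Bk X hN hm hq hp hc hH hX hsum
  have hN' : (0 : ℝ) < (N : ℝ) := by exact_mod_cast hN
  have hq' : (1 : ℝ) ≤ (q : ℝ) := by exact_mod_cast hq
  have hm' : (1 : ℝ) ≤ (m : ℝ) := by exact_mod_cast hm
  have hc0 : (0 : ℝ) < c := by linarith
  obtain ⟨V2, hV2⟩ : ∃ V2 : Finset (Fin N) → Finset (Fin N), ∀ B, V2 B =
    (univ : Finset (Fin N)).filter (fun v => ∃ E ∈ H, (∃ e ∈ E, e ∈ ed B) ∧ v ∈ verts E) :=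
    ⟨_, fun _ => rfl⟩
  obtain ⟨V3, hV3⟩ : ∃ V3 : Finset (Fin N) → Finset (Fin N), ∀ B, V3 B =
    (range (q + 1)).biUnion (fun s => X B s) := ⟨_, fun _ => rfl⟩
  obtain ⟨D, hD⟩ : ∃ D : Finset (Fin N) → ℝ, ∀ F, D F =
    6 * c * ((q : ℝ) + 1) ^ 3 * (N : ℝ) ^ ((q : ℝ) / (p : ℝ)) * (N : ℝ) ^ F.card :=
    ⟨_, fun _ => rfl⟩
  have hNp : (0 : ℝ) < (N : ℝ) ^ ((q : ℝ) / (p : ℝ)) := Real.rpow_pos_of_pos hN' _
  have hDpos : ∀ F, 0 < D F := by
    intro F
    rw [hD]
    positivity
  have hnu : ∀ B F, 0 < nu b m H B F := fun B F => BRK_gain_pos b m _ H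
  obtain ⟨k1, hk1⟩ : ∃ k1 : Finset (Fin N) → Finset (Fin N) → ℝ, ∀ B B', k1 B B' =
    ∑ s ∈ (Icc 1 q).filter (fun s => B.card ≤ s), ∑ F ∈ fam N s Bk B (X B s),
      (if B ∪ F = B' then nu b m H B F / D F else 0) := ⟨_, fun _ _ => rfl⟩
  obtain ⟨k2, hk2⟩ : ∃ k2 : Finset (Fin N) → Finset (Fin N) → ℝ, ∀ B B', k2 B B' =
    if B.card + 1 ≤ q then ∑ v ∈ V2 B, (if insert v B = B' then Real.exp (-kF N m b q p) else 0)
      else 0 := ⟨_, fun _ _ => rfl⟩
  obtain ⟨k3, hk3⟩ : ∃ k3 : Finset (Fin N) → Finset (Fin N) → ℝ, ∀ B B', k3 B B' =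
    if B.card + 1 ≤ q then ∑ v ∈ V3 B, (if insert v B = B' then Real.exp (-kF N m b q p) else 0)
      else 0 := ⟨_, fun _ _ => rfl⟩
  have hex : 0 ≤ Real.exp (-kF N m b q p) := (Real.exp_pos _).le
  have n1 : ∀ B B', 0 ≤ k1 B B' := by
    intro B B'
    rw [hk1]
    apply sum_nonneg
    intro s _
    apply sum_nonneg
    intro F _
    split_ifs
    · exact div_nonneg (hnu B F).le (hDpos F).le
    · exact le_rfl
  have n2 : ∀ B B', 0 ≤ k2 B B' := by
    intro B B'
    rw [hk2]
    split_ifs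
    · apply sum_nonneg
      intro v _
      split_ifs
      · exact hex
      · exact le_rfl
    · exact le_rfl
  have n3 : ∀ B B', 0 ≤ k3 B B' := by
    intro B B'
    rw [hk3]
    split_ifs
    · apply sum_nonneg
      intro v _
      split_ifs
      · exact hex
      · exact le_rfl
    · exact le_rfl
  -- the totals
  have t1 : ∀ B, ∑ B', k1 B B' ≤ 1 / 3 := by
    intro B
    simp_rw [hk1]
    rw [sum_comm]
    have e1 : ∀ s ∈ (Icc 1 q).filter (fun s => B.card ≤ s),
        ∑ B' : Finset (Fin N), ∑ F ∈ fam N s Bk B (X B s),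
          (if B ∪ F = B' then nu b m H B F / D F else 0) ≤ 1 / (3 * ((q : ℝ) + 1)) := by
      intro s hs
      obtain ⟨hs1, hBs⟩ := mem_filter.1 hs
      obtain ⟨hs1, hsq⟩ := mem_Icc.1 hs1
      rw [sum_comm]
      have e2 : ∀ F ∈ fam N s Bk B (X B s), ∑ B' : Finset (Fin N),
          (if B ∪ F = B' then nu b m H B F / D F else 0) =
          nu b m H B F / (6 * c * ((q : ℝ) + 1) ^ 3 * (N : ℝ) ^ ((q : ℝ) / (p : ℝ)) *
            (N : ℝ) ^ (s - B.card)) := by
        intro F hF
        rw [sum_ite_eq]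
        have hFc : F.card = s - B.card := (mem_filter.1 hF).2.1
        simp [hD, hFc]
      rw [sum_congr rfl e2, ← sum_div, div_le_iff₀ (by positivity)]
      refine (hsum B s hBs hs1 hsq).trans (le_of_eq ?_)
      rw [Real.rpow_add hN', Real.rpow_natCast]
      field_simp
      ring
    calc ∑ s ∈ (Icc 1 q).filter (fun s => B.card ≤ s), ∑ B' : Finset (Fin N),
          ∑ F ∈ fam N s Bk B (X B s), (if B ∪ F = B' then nu b m H B F / D F else 0)
        ≤ ∑ _s ∈ (Icc 1 q).filter (fun s => B.card ≤ s), 1 / (3 * ((q : ℝ) + 1)) :=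
          sum_le_sum e1
      _ = (((Icc 1 q).filter (fun s => B.card ≤ s)).card : ℝ) * (1 / (3 * ((q : ℝ) + 1))) := by
          rw [sum_const, nsmul_eq_mul]
      _ ≤ ((q : ℝ) + 1) * (1 / (3 * ((q : ℝ) + 1))) := by
          apply mul_le_mul_of_nonneg_right
          · have : ((Icc 1 q).filter (fun s => B.card ≤ s)).card ≤ q + 1 := by
              refine (card_filter_le _ _).trans ?_
              simp
            exact_mod_cast this
          · positivity
      _ = 1 / 3 := by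
          field_simp
  have hZ : (0 : ℝ) < 6 * (m : ℝ) * (q : ℝ) ^ 2 +
      3 * ((q : ℝ) + 1) * (nn N m b q p : ℝ) + 1 := by positivity
  have t2 : ∀ B, ∑ B', k2 B B' ≤ 1 / 3 := by
    intro B
    simp_rw [hk2]
    by_cases hB : B.card + 1 ≤ q
    · simp only [hB, if_true]
      rw [BRK_ind, BRK_exp, ← div_eq_mul_inv, div_le_iff₀ hZ]
      have h := BRK_V2 hHLN hH B q (by omega)
      rw [← hV2 B] at h
      have h' : ((V2 B).card : ℝ) ≤ 2 * (m : ℝ) * (q : ℝ) ^ 2 := by exact_mod_cast h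
      have h3 : (0 : ℝ) ≤ 3 * ((q : ℝ) + 1) * (nn N m b q p : ℝ) := by positivity
      linarith
    · simp only [hB, if_false, sum_const_zero]
      norm_num
  have t3 : ∀ B, ∑ B', k3 B B' ≤ 1 / 3 := by
    intro B
    simp_rw [hk3]
    by_cases hB : B.card + 1 ≤ q
    · simp only [hB, if_true]
      rw [BRK_ind, BRK_exp, ← div_eq_mul_inv, div_le_iff₀ hZ]
      have h : (V3 B).card ≤ (q + 1) * nn N m b q p := by
        rw [hV3]
        calc ((range (q + 1)).biUnion (fun s => X B s)).card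
            ≤ ∑ s ∈ range (q + 1), (X B s).card := card_biUnion_le
          _ ≤ ∑ _s ∈ range (q + 1), nn N m b q p := sum_le_sum (fun s _ => hX B s)
          _ = (q + 1) * nn N m b q p := by rw [sum_const, smul_eq_mul, card_range]
      have h' : ((V3 B).card : ℝ) ≤ ((q : ℝ) + 1) * (nn N m b q p : ℝ) := by exact_mod_cast h
      have h3 : (0 : ℝ) ≤ 6 * (m : ℝ) * (q : ℝ) ^ 2 := by positivity
      linarith
    · simp only [hB, if_false, sum_const_zero]
      norm_num
  refine ⟨fun B B' => k1 B B' + k2 B B' + k3 B B', ?_, ?_, ?_, ?_, ?_⟩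
  · intro B B'
    have := n1 B B'
    have := n2 B B'
    have := n3 B B'
    show 0 ≤ k1 B B' + k2 B B' + k3 B B'
    linarith
  · intro B
    show ∑ B', (k1 B B' + k2 B B' + k3 B B') ≤ 1
    rw [sum_add_distrib, sum_add_distrib]
    have := t1 B
    have := t2 B
    have := t3 B
    linarith
  · intro B F hF hd hcard hXF hBk
    have h2 := n2 B (B ∪ F)
    have h3 := n3 B (B ∪ F)
    show _ ≤ k1 B (B ∪ F) + k2 B (B ∪ F) + k3 B (B ∪ F)
    have hcu : (B ∪ F).card = B.card + F.card := card_union_of_disjoint hd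
    have hFpos : 1 ≤ F.card := card_pos.2 hF
    have hmemF : F ∈ fam N (B ∪ F).card Bk B (X B (B ∪ F).card) := by
      unfold fam
      rw [mem_filter]
      refine ⟨mem_univ _, ?_, hd, hXF, hBk⟩
      omega
    have hmems : (B ∪ F).card ∈ (Icc 1 q).filter (fun s => B.card ≤ s) := by
      rw [mem_filter, mem_Icc]
      refine ⟨⟨?_, hcard⟩, ?_⟩ <;> omega
    have hval : Real.exp (Real.log (gain b m (rest (B ∪ F) B) H) -
        (F.card : ℝ) * Real.log N - kP N q p c) = nu b m H B F / D F := by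
      have hg := hnu B F
      unfold nu at hg ⊢
      rw [hD]
      unfold kP
      have e1 : Real.exp ((F.card : ℝ) * Real.log N) = (N : ℝ) ^ F.card := by
        rw [mul_comm, Real.exp_mul, Real.exp_log hN', Real.rpow_natCast]
      have e2 : Real.exp ((q : ℝ) / (p : ℝ) * Real.log N) = (N : ℝ) ^ ((q : ℝ) / (p : ℝ)) := by
        rw [mul_comm, Real.exp_mul, Real.exp_log hN']
      have e3 : Real.exp (Real.log (6 * c * ((q : ℝ) + 1) ^ 3)) = 6 * c * ((q : ℝ) + 1) ^ 3 :=
        Real.exp_log (by positivity)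
      rw [Real.exp_sub, Real.exp_sub, Real.exp_log hg, Real.exp_add, e1, e2, e3, div_div]
      congr 1
      ring
    rw [hval]
    have s1 : nu b m H B F / D F ≤ ∑ F' ∈ fam N (B ∪ F).card Bk B (X B (B ∪ F).card),
        (if B ∪ F' = B ∪ F then nu b m H B F' / D F' else 0) := by
      have := single_le_sum (f := fun F' => (if B ∪ F' = B ∪ F then nu b m H B F' / D F' else 0))
        (fun F' _ => by
          show 0 ≤ (if B ∪ F' = B ∪ F then nu b m H B F' / D F' else 0)
          split_ifs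
          · exact div_nonneg (hnu B F').le (hDpos F').le
          · exact le_rfl) hmemF
      simpa using this
    have s2 : ∑ F' ∈ fam N (B ∪ F).card Bk B (X B (B ∪ F).card),
        (if B ∪ F' = B ∪ F then nu b m H B F' / D F' else 0) ≤ k1 B (B ∪ F) := by
      rw [hk1]
      apply single_le_sum (f := fun s => ∑ F' ∈ fam N s Bk B (X B s),
        (if B ∪ F' = B ∪ F then nu b m H B F' / D F' else 0)) _ hmems
      intro s _
      apply sum_nonneg
      intro F' _
      split_ifs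
      · exact div_nonneg (hnu B F').le (hDpos F').le
      · exact le_rfl
    linarith
  · intro B v E e hE he heB hv hvB hcard
    have h1 := n1 B (insert v B)
    have h3 := n3 B (insert v B)
    show _ ≤ k1 B (insert v B) + k2 B (insert v B) + k3 B (insert v B)
    have hmem : v ∈ V2 B := by
      rw [hV2, mem_filter]
      exact ⟨mem_univ _, E, hE, ⟨e, he, heB⟩, hv⟩
    have s1 := BRK_single (V2 B) B _ hex v hmem
    have s2 : k2 B (insert v B) = ∑ u ∈ V2 B,
        (if insert u B = insert v B then Real.exp (-kF N m b q p) else 0) := by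
      rw [hk2, if_pos hcard]
    rw [← s2] at s1
    linarith
  · intro B v s hs hv hvB hcard
    have h1 := n1 B (insert v B)
    have h2 := n2 B (insert v B)
    show _ ≤ k1 B (insert v B) + k2 B (insert v B) + k3 B (insert v B)
    have hmem : v ∈ V3 B := by
      rw [hV3, mem_biUnion]
      exact ⟨s, mem_range.2 (by omega), hv⟩
    have s1 := BRK_single (V3 B) B _ hex v hmem
    have s2 : k3 B (insert v B) = ∑ u ∈ V3 B,
        (if insert u B = insert v B then Real.exp (-kF N m b q p) else 0) := by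
      rw [hk3, if_pos hcard]
    rw [← s2] at s1
    linarith

end Pool.Agent.helper42.CQ
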