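import Pool.Agent.helper42.CQ.SpecC

/-!
# Row cq:CLO (MP_ba8873_co): closure by turn steps
-/

set_option autoImplicit false

namespace Pool.Agent.helper42.CQ

open Finset Pool.Agent.helper24.CG

theorem CLO_exit {α : Type} (r : α → α → Prop) (S : α → Prop) (z u : α)
    (h : Relation.ReflTransGen r z u) (hz : S z) (hu : ¬ S u) :
    ∃ x y, Relation.ReflTransGen r z x ∧ r x y ∧ S x ∧ ¬ S y := by
  induction h with
  | refl => exact absurd hz hu
  | tail h1 h2 ih =>
    rename_i x y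
    by_cases hx : S x
    · exact ⟨x, y, h1, h2, hx, hu⟩
    · exact ih hx

theorem CLO_mem {N : ℕ} (M : ℕ) (K : Finset (Fin N)) (H : List (ES N)) (z u : Fin N) :
    u ∈ cmp M K H z ↔ u ∈ K ∧ Relation.ReflTransGen (rl M K H) z u := by
  simp only [cmp, mem_filter]

theorem CLO (_hREL : REL_stmt) : CLO_stmt := by
  classical
  intro N m b q p M c H X K B Y Z w hM hH hKq hch hBK hYB hZK hr hWF hZ
  have hB'K : B ∪ Z.biUnion (cmp M K H) ⊆ K := by
    apply union_subset hBK
    intro x hx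
    obtain ⟨z, _, hx2⟩ := mem_biUnion.1 hx
    exact ((CLO_mem M K H z x).1 hx2).1
  -- one step
  have hstep : ∀ B₁ : Finset (Fin N), B ⊆ B₁ → B₁ ⊆ B ∪ Z.biUnion (cmp M K H) →
      B₁ ≠ B ∪ Z.biUnion (cmp M K H) → ∃ (v : Fin N) (E : ES N) (e : Finset (Fin N)),
      v ∈ B ∪ Z.biUnion (cmp M K H) ∧ v ∉ B₁ ∧ E ∈ H ∧ e ∈ E ∧ e ∈ ed B₁ ∧ v ∈ verts E := by
    intro B₁ hB1 hB2 hne
    obtain ⟨u, hu1, hu2⟩ : ∃ u, u ∈ B ∪ Z.biUnion (cmp M K H) ∧ u ∉ B₁ := by
      by_contra hcon
      push Not at hcon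
      exact hne (Subset.antisymm hB2 hcon)
    have hu3 : u ∈ Z.biUnion (cmp M K H) := by
      rcases mem_union.1 hu1 with h | h
      · exact absurd (hB1 h) hu2
      · exact h
    obtain ⟨z, hz, huz⟩ := mem_biUnion.1 hu3
    have hzK := hZK hz
    by_cases hzB : z ∈ B₁
    · obtain ⟨x, y, h1, h2, h3, h4⟩ := CLO_exit (rl M K H) (fun v => v ∈ B₁) z u
        ((CLO_mem M K H z u).1 huz).2 hzB hu2
      obtain ⟨x', hx', hxx, E, hE, hxE, hy⟩ := hr x y h2
      refine ⟨y, E, {x, x'}, ?_, h4, hE, hxE, ?_, hy⟩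
      · apply mem_union_right
        rw [mem_biUnion]
        exact ⟨z, hz, (CLO_mem M K H z y).2 ⟨h2.2.1, h1.tail h2⟩⟩
      · unfold ed
        rw [mem_powersetCard]
        refine ⟨?_, card_pair (Ne.symm hxx)⟩
        intro a ha
        rcases mem_insert.1 ha with rfl | ha
        · exact h3
        · rw [mem_singleton.1 ha]
          exact hB1 (hYB hx')
    · have hWz : WF M K H z := by
        rcases hZ z hz with h | h
        · exact absurd (hB1 h) hzB
        · exact h
      obtain ⟨e', he', heY⟩ := hWF z hzK hWz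
      unfold part at he'
      obtain ⟨h1, h2, E, hE, he'E, e, heE, heK, hze⟩ := mem_filter.1 he'
      refine ⟨z, E, e', ?_, hzB, hE, he'E, ?_, ?_⟩
      · apply mem_union_right
        rw [mem_biUnion]
        exact ⟨z, hz, (CLO_mem M K H z z).2 ⟨hzK, Relation.ReflTransGen.refl⟩⟩
      · unfold ed at h1 ⊢
        rw [mem_powersetCard] at h1 ⊢
        exact ⟨heY.trans (hYB.trans hB1), h1.2⟩
      · unfold verts
        rw [mem_biUnion]
        exact ⟨e, heE, hze⟩
  have hmain : ∀ (n : ℕ) (B₁ : Finset (Fin N)) (w₁ : ℝ), B ⊆ B₁ →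
      B₁ ⊆ B ∪ Z.biUnion (cmp M K H) → Chain N m b q p c H X B₁ w₁ →
      ((B ∪ Z.biUnion (cmp M K H)) \ B₁).card = n →
      ∃ w' : ℝ, Chain N m b q p c H X (B ∪ Z.biUnion (cmp M K H)) w' ∧
        w₁ - (n : ℝ) * kF N m b q p ≤ w' := by
    intro n
    induction n with
    | zero =>
      intro B₁ w₁ hB1 hB2 hc hcard
      have : B₁ = B ∪ Z.biUnion (cmp M K H) :=
        Subset.antisymm hB2 (sdiff_eq_empty_iff_subset.1 (card_eq_zero.1 hcard))
      rw [← this]
      refine ⟨w₁, hc, ?_⟩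
      simp
    | succ n ih =>
      intro B₁ w₁ hB1 hB2 hc hcard
      have hne : B₁ ≠ B ∪ Z.biUnion (cmp M K H) := by
        rintro rfl
        simp at hcard
      obtain ⟨v, E, e, hv, hvB, hE, heE, he, hvE⟩ := hstep B₁ hB1 hB2 hne
      have hins : insert v B₁ ⊆ B ∪ Z.biUnion (cmp M K H) :=
        insert_subset hv hB2
      have hcd : B₁.card + 1 ≤ q := by
        rw [← card_insert_of_notMem hvB]
        exact (card_le_card (hins.trans hB'K)).trans hKq
      have hc' := Chain.turn B₁ v w₁ E e hc hE heE he hvE hvB hcd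
      have hcard' : ((B ∪ Z.biUnion (cmp M K H)) \ insert v B₁).card = n := by
        have h1 : (B ∪ Z.biUnion (cmp M K H)) \ insert v B₁ =
            ((B ∪ Z.biUnion (cmp M K H)) \ B₁).erase v := by
          ext x
          simp only [mem_sdiff, mem_insert, mem_erase]
          tauto
        rw [h1, card_erase_of_mem (mem_sdiff.2 ⟨hv, hvB⟩), hcard]
        rfl
      obtain ⟨w', hw1, hw2⟩ := ih (insert v B₁) _ (hB1.trans (subset_insert _ _)) hins hc' hcard'
      refine ⟨w', hw1, ?_⟩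
      push_cast
      linarith
  exact hmain _ B w (Subset.refl _) subset_union_left hch rfl

end Pool.Agent.helper42.CQ
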