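import Pool.Agent.helper42.CQ.SpecC

/-!
# Row cq:COL (MP_ba8873_co): hitting sets by colouring
-/

set_option autoImplicit false

namespace Pool.Agent.helper42.CQ

open Finset Pool.Agent.helper24.CG

theorem COL (hCL1 : CL1_stmt) : COL_stmt := by
  classical
  intro α _ ι _ K D k M hk hD hlt
  have hk' : (1 : ℝ) ≤ (k : ℝ) := by exact_mod_cast hk
  have hkk : 1 / (k : ℝ) ^ 2 ≤ 1 := by
    rw [div_le_one (by positivity)]
    exact one_le_pow₀ hk'
  have hb0 : (0 : ℝ) ≤ 1 - 1 / (k : ℝ) ^ 2 := by linarith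
  have hb1 : 1 - 1 / (k : ℝ) ^ 2 ≤ 1 := by
    have : 0 ≤ 1 / (k : ℝ) ^ 2 := by positivity
    linarith
  obtain ⟨D', hD'⟩ : ∃ D' : ι → Finset (Finset {x // x ∈ K}), ∀ i, D' i =
      (D i).image (fun d => d.subtype (fun x => x ∈ K)) := ⟨_, fun _ => rfl⟩
  have hmem : ∀ (d : Finset α), d ⊆ K → ∀ x : {x // x ∈ K}, x ∈ d.subtype (fun x => x ∈ K) ↔
      x.1 ∈ d := by
    intro d _ x
    rw [mem_subtype]
  have hcs : ∀ d : Finset α, d ⊆ K → (d.subtype (fun x => x ∈ K)).card = d.card := by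
    intro d hd
    rw [card_subtype, filter_true_of_mem (fun x hx => hd hx)]
  have hinj : ∀ i, ∀ d ∈ D i, ∀ d' ∈ D i, d.subtype (fun x => x ∈ K) =
      d'.subtype (fun x => x ∈ K) → d = d' := by
    intro i d hd d' hd' he
    ext x
    constructor
    · intro hx
      have hxK := ((hD i).2.1 d hd).1 hx
      have : (⟨x, hxK⟩ : {x // x ∈ K}) ∈ d.subtype (fun x => x ∈ K) := mem_subtype.2 hx
      rw [he] at this
      exact mem_subtype.1 this
    · intro hx
      have hxK := ((hD i).2.1 d' hd').1 hx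
      have : (⟨x, hxK⟩ : {x // x ∈ K}) ∈ d'.subtype (fun x => x ∈ K) := mem_subtype.2 hx
      rw [← he] at this
      exact mem_subtype.1 this
  have hcD : ∀ i, M ≤ (D' i).card := by
    intro i
    rw [hD', card_image_of_injOn]
    · exact (hD i).1
    · intro d hd d' hd' he
      exact hinj i d hd d' hd' he
  obtain ⟨bad, hbad⟩ : ∃ bad : ι × Fin k → Finset ({x // x ∈ K} → Fin k), ∀ x, bad x =
      (univ : Finset ({x // x ∈ K} → Fin k)).filter
        (fun f => ∀ d ∈ D' x.1, ∃ y ∈ d, f y ≠ x.2) := ⟨_, fun _ => rfl⟩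
  have hbc : ∀ x, ((bad x).card : ℝ) ≤
      (k : ℝ) ^ (Fintype.card {x // x ∈ K}) * (1 - 1 / (k : ℝ) ^ 2) ^ M := by
    intro x
    rw [hbad]
    have h1 := hCL1 {x // x ∈ K} (D' x.1) k x.2 (by
      intro d hd
      rw [hD'] at hd
      obtain ⟨d₀, hd₀, rfl⟩ := mem_image.1 hd
      obtain ⟨h2, h3, h4⟩ := (hD x.1).2.1 d₀ hd₀
      rw [hcs d₀ h2]
      exact ⟨h3, h4⟩) (by
      intro d hd d' hd' hne
      rw [hD'] at hd hd'
      obtain ⟨d₀, hd₀, rfl⟩ := mem_image.1 hd
      obtain ⟨d₁, hd₁, rfl⟩ := mem_image.1 hd'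
      have hne' : d₀ ≠ d₁ := by
        rintro rfl
        exact hne rfl
      have h5 := (hD x.1).2.2 d₀ hd₀ d₁ hd₁ hne'
      rw [disjoint_left]
      intro y hy hy'
      exact disjoint_left.1 h5 (mem_subtype.1 hy) (mem_subtype.1 hy'))
    refine le_trans (le_of_eq ?_) (h1.trans ?_)
    · congr
    · apply mul_le_mul_of_nonneg_left _ (by positivity)
      exact pow_le_pow_of_le_one hb0 hb1 (hcD x.1)
  have hlt2 : ((univ : Finset (ι × Fin k)).biUnion bad).card <
      (univ : Finset ({x // x ∈ K} → Fin k)).card := by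
    have h1 : ((((univ : Finset (ι × Fin k)).biUnion bad).card : ℕ) : ℝ) ≤
        ∑ x : ι × Fin k, ((bad x).card : ℝ) := by
      have := card_biUnion_le (s := (univ : Finset (ι × Fin k))) (t := bad)
      exact_mod_cast this
    have h2 : ∑ x : ι × Fin k, ((bad x).card : ℝ) ≤ ∑ _x : ι × Fin k,
        (k : ℝ) ^ (Fintype.card {x // x ∈ K}) * (1 - 1 / (k : ℝ) ^ 2) ^ M :=
      sum_le_sum (fun x _ => hbc x)
    rw [sum_const, nsmul_eq_mul, card_univ, Fintype.card_prod, Fintype.card_fin] at h2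
    have h3 : (((Fintype.card ι * k : ℕ) : ℝ)) * ((k : ℝ) ^ (Fintype.card {x // x ∈ K}) *
        (1 - 1 / (k : ℝ) ^ 2) ^ M) =
        (k : ℝ) ^ (Fintype.card {x // x ∈ K}) *
          ((Fintype.card ι : ℝ) * (k : ℝ) * (1 - 1 / (k : ℝ) ^ 2) ^ M) := by
      push_cast
      ring
    rw [h3] at h2
    have h4 : (k : ℝ) ^ (Fintype.card {x // x ∈ K}) *
          ((Fintype.card ι : ℝ) * (k : ℝ) * (1 - 1 / (k : ℝ) ^ 2) ^ M) <
          (k : ℝ) ^ (Fintype.card {x // x ∈ K}) * 1 := by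
      apply mul_lt_mul_of_pos_left hlt
      positivity
    have h5 : (((univ : Finset ({x // x ∈ K} → Fin k)).card : ℕ) : ℝ) =
        (k : ℝ) ^ (Fintype.card {x // x ∈ K}) := by
      rw [card_univ, Fintype.card_fun, Fintype.card_fin]
      push_cast
      ring
    have h6 : ((((univ : Finset (ι × Fin k)).biUnion bad).card : ℕ) : ℝ) <
        (((univ : Finset ({x // x ∈ K} → Fin k)).card : ℕ) : ℝ) := by
      rw [h5]
      linarith
    exact_mod_cast h6
  obtain ⟨f, _, hf⟩ := exists_mem_notMem_of_card_lt_card hlt2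
  have hf2 : ∀ (i : ι) (a : Fin k), ∃ d ∈ D' i, ∀ y ∈ d, f y = a := by
    intro i a
    by_contra hcon
    apply hf
    rw [mem_biUnion]
    refine ⟨(i, a), mem_univ _, ?_⟩
    rw [hbad, mem_filter]
    refine ⟨mem_univ _, ?_⟩
    intro d hd
    by_contra hc2
    push Not at hc2
    exact hcon ⟨d, hd, hc2⟩
  obtain ⟨a, ha⟩ : ∃ a : Fin k, k * ((univ : Finset {x // x ∈ K}).filter
      (fun y => f y = a)).card ≤ K.card := by
    by_contra hcon
    push Not at hcon
    have h1 : ∑ a : Fin k, ((univ : Finset {x // x ∈ K}).filter (fun y => f y = a)).card =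
        K.card := by
      rw [← card_eq_sum_card_fiberwise (f := f) (s := univ) (t := univ) (fun _ _ => mem_coe.2 (mem_univ _))]
      simp
    have h2 : ∑ _a : Fin k, K.card < ∑ a : Fin k,
        k * ((univ : Finset {x // x ∈ K}).filter (fun y => f y = a)).card := by
      apply sum_lt_sum_of_nonempty
      · exact ⟨⟨0, by omega⟩, mem_univ _⟩
      · intro a _
        exact hcon a
    rw [← mul_sum, h1, sum_const, card_univ, Fintype.card_fin, smul_eq_mul] at h2
    exact lt_irrefl _ h2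
  refine ⟨((univ : Finset {x // x ∈ K}).filter (fun y => f y = a)).map
    (Function.Embedding.subtype _), ?_, ?_, ?_⟩
  · intro x hx
    obtain ⟨y, _, rfl⟩ := mem_map.1 hx
    exact y.2
  · rw [card_map]
    exact ha
  · intro i
    obtain ⟨d, hd, hda⟩ := hf2 i a
    rw [hD'] at hd
    obtain ⟨d₀, hd₀, rfl⟩ := mem_image.1 hd
    refine ⟨d₀, hd₀, ?_⟩
    intro x hx
    have hxK := ((hD i).2.1 d₀ hd₀).1 hx
    have h1 := hda ⟨x, hxK⟩ (mem_subtype.2 hx)
    exact mem_map.2 ⟨⟨x, hxK⟩, mem_filter.2 ⟨mem_univ _, h1⟩, rfl⟩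

end Pool.Agent.helper42.CQ
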