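import Pool.Agent.helper42.CQ.SpecC

/-!
# Row cq:CRS (MP_ba8873_co): crossing
-/

set_option autoImplicit false

namespace Pool.Agent.helper42.CQ

open Finset Pool.Agent.helper24.CG

theorem CRS_sub {V : Type} [DecidableEq V] (w : Finset V → ℝ) (hw : ∀ e, 0 ≤ w e) (l : ℝ)
    (A B : Finset V) :
    (((A ∩ B).card : ℝ) * l - ∑ e ∈ (A ∩ B).powersetCard 2, w e) +
      (((A ∪ B).card : ℝ) * l - ∑ e ∈ (A ∪ B).powersetCard 2, w e) ≤
    ((A.card : ℝ) * l - ∑ e ∈ A.powersetCard 2, w e) +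
      ((B.card : ℝ) * l - ∑ e ∈ B.powersetCard 2, w e) := by
  have h1 : ((A ∪ B).card : ℝ) + ((A ∩ B).card : ℝ) = (A.card : ℝ) + (B.card : ℝ) := by
    exact_mod_cast card_union_add_card_inter A B
  have h2 : A.powersetCard 2 ∩ B.powersetCard 2 = (A ∩ B).powersetCard 2 := by
    ext e
    simp only [mem_inter, mem_powersetCard, subset_inter_iff]
    tauto
  have h3 : A.powersetCard 2 ∪ B.powersetCard 2 ⊆ (A ∪ B).powersetCard 2 := by
    intro e he
    rcases mem_union.1 he with h | h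
    · obtain ⟨h4, h5⟩ := mem_powersetCard.1 h
      exact mem_powersetCard.2 ⟨h4.trans subset_union_left, h5⟩
    · obtain ⟨h4, h5⟩ := mem_powersetCard.1 h
      exact mem_powersetCard.2 ⟨h4.trans subset_union_right, h5⟩
  have h4 := sum_union_inter (s₁ := A.powersetCard 2) (s₂ := B.powersetCard 2) (f := w)
  rw [h2] at h4
  have h5 : ∑ e ∈ A.powersetCard 2 ∪ B.powersetCard 2, w e ≤ ∑ e ∈ (A ∪ B).powersetCard 2, w e :=
    sum_le_sum_of_subset_of_nonneg h3 (fun e _ _ => hw e)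
  have h6 : ((A ∪ B).card : ℝ) * l + ((A ∩ B).card : ℝ) * l = (A.card : ℝ) * l + (B.card : ℝ) * l := by
    rw [← add_mul, h1, add_mul]
  linarith

theorem CRS : CRS_stmt := by
  classical
  intro V _ K n G w l κ d D hl hκ hGK hGG hGD hG0 hw0 hw hww hwd
  obtain ⟨F, hF⟩ : ∃ F : ℕ → Finset V → ℝ, ∀ t Y, F t Y =
    (Y.card : ℝ) * l - ∑ e ∈ Y.powersetCard 2, w t e := ⟨_, fun _ _ => rfl⟩
  simp only [← hF]
  have hmin : ∀ t ≤ n, ∃ Y, G t ⊆ Y ∧ Y ⊆ K ∧ ∀ Z, G t ⊆ Z → Z ⊆ K → F t Y ≤ F t Z := by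
    intro t ht
    obtain ⟨Y, hY, hY2⟩ := exists_min_image (K.powerset.filter (fun Y => G t ⊆ Y)) (F t)
      ⟨K, mem_filter.2 ⟨mem_powerset.2 (Subset.refl _), hGK t ht⟩⟩
    obtain ⟨h1, h2⟩ := mem_filter.1 hY
    exact ⟨Y, h2, mem_powerset.1 h1, fun Z hZ hZK => hY2 Z (mem_filter.2 ⟨mem_powerset.2 hZK, hZ⟩)⟩
  by_cases h : ∃ t, t ≤ n ∧ ∃ B, G t ⊆ B ∧ B ⊆ K ∧ κ ≤ (B.card : ℝ) ∧
      ∀ Z, G t ⊆ Z → Z ⊆ K → F t B ≤ F t Z
  · left
    obtain ⟨htn, B, hGB, hBK, hκB, hB⟩ := Nat.find_spec h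
    have hnot : ∀ t < Nat.find h, ¬ (t ≤ n ∧ ∃ B, G t ⊆ B ∧ B ⊆ K ∧ κ ≤ (B.card : ℝ) ∧
      ∀ Z, G t ⊆ Z → Z ⊆ K → F t B ≤ F t Z) := fun t ht => Nat.find_min h ht
    generalize Nat.find h = t at *
    cases t with
    | zero =>
      exfalso
      have h1 := hB ∅ (by rw [hG0]) (empty_subset _)
      rw [hF, hF] at h1
      simp only [hw0, sum_const_zero, card_empty, Nat.cast_zero, zero_mul, sub_zero] at h1
      have : 0 < (B.card : ℝ) * l := mul_pos (by linarith) hl
      linarith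
    | succ t =>
      obtain ⟨A₀, hA1, hA2, hA3⟩ := hmin t (by omega)
      have hA4 : (A₀.card : ℝ) < κ := by
        by_contra hcon
        exact hnot t (Nat.lt_succ_self t) ⟨by omega, A₀, hA1, hA2, not_lt.1 hcon, hA3⟩
      have htn' : t < n := by omega
      refine ⟨t + 1, by omega, htn, (A₀ ∪ G (t + 1)) ∩ B, B, ?_, inter_subset_right, hBK, ?_, hκB,
        hB, ?_⟩
      · exact subset_inter subset_union_right hGB
      · have h1 : A₀ ∪ G (t + 1) ⊆ A₀ ∪ (G (t + 1) \ G t) := by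
          intro x hx
          rcases mem_union.1 hx with h2 | h2
          · exact mem_union_left _ h2
          · by_cases h3 : x ∈ G t
            · exact mem_union_left _ (hA1 h3)
            · exact mem_union_right _ (mem_sdiff.2 ⟨h2, h3⟩)
        have h2 : ((A₀ ∪ G (t + 1)) ∩ B).card ≤ A₀.card + D := by
          calc ((A₀ ∪ G (t + 1)) ∩ B).card ≤ (A₀ ∪ G (t + 1)).card := card_le_card inter_subset_left
            _ ≤ (A₀ ∪ (G (t + 1) \ G t)).card := card_le_card h1
            _ ≤ A₀.card + (G (t + 1) \ G t).card := card_union_le _ _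
            _ ≤ A₀.card + D := Nat.add_le_add_left (hGD t htn') _
        have h3 : (((A₀ ∪ G (t + 1)) ∩ B).card : ℝ) ≤ (A₀.card : ℝ) + (D : ℝ) := by
          exact_mod_cast h2
        linarith
      · -- the value
        have h1 : A₀ ∪ G (t + 1) ⊆ A₀ ∪ (G (t + 1) \ G t) := by
          intro x hx
          rcases mem_union.1 hx with h2 | h2
          · exact mem_union_left _ h2
          · by_cases h3 : x ∈ G t
            · exact mem_union_left _ (hA1 h3)
            · exact mem_union_right _ (mem_sdiff.2 ⟨h2, h3⟩)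
        have s1 : F (t + 1) (A₀ ∪ G (t + 1)) ≤ F t (A₀ ∪ G (t + 1)) := by
          rw [hF, hF]
          have := sum_le_sum (s := (A₀ ∪ G (t + 1)).powersetCard 2)
            (fun e _ => hww t htn' e)
          linarith
        have s2 : F t (A₀ ∪ G (t + 1)) ≤ F t A₀ + (D : ℝ) * l := by
          rw [hF, hF]
          have h2 : ((A₀ ∪ G (t + 1)).card : ℝ) ≤ (A₀.card : ℝ) + (D : ℝ) := by
            have : (A₀ ∪ G (t + 1)).card ≤ A₀.card + D :=
              calc (A₀ ∪ G (t + 1)).card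
                  ≤ (A₀ ∪ (G (t + 1) \ G t)).card := card_le_card h1
                _ ≤ A₀.card + (G (t + 1) \ G t).card := card_union_le _ _
                _ ≤ A₀.card + D := Nat.add_le_add_left (hGD t htn') _
            exact_mod_cast this
          have h3 : ((A₀ ∪ G (t + 1)).card : ℝ) * l ≤ ((A₀.card : ℝ) + (D : ℝ)) * l :=
            mul_le_mul_of_nonneg_right h2 hl.le
          have h4 : ∑ e ∈ A₀.powersetCard 2, w t e ≤ ∑ e ∈ (A₀ ∪ G (t + 1)).powersetCard 2, w t e :=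
            sum_le_sum_of_subset_of_nonneg (powersetCard_mono subset_union_left)
              (fun e _ _ => hw t e)
          rw [add_mul] at h3
          linarith
        have s3 : F t A₀ ≤ F t B := hA3 B ((hGG t htn').trans hGB) hBK
        have s4 : F t B ≤ F (t + 1) B + d := by
          rw [hF, hF]
          have h2 : ∑ e ∈ B.powersetCard 2, (w (t + 1) e - w t e) ≤
              ∑ e ∈ K.powersetCard 2, (w (t + 1) e - w t e) :=
            sum_le_sum_of_subset_of_nonneg (powersetCard_mono hBK)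
              (fun e _ _ => by linarith [hww t htn' e])
          rw [sum_sub_distrib] at h2
          have := hwd t htn'
          linarith
        have s5 := CRS_sub (w (t + 1)) (hw (t + 1)) l (A₀ ∪ G (t + 1)) B
        rw [← hF, ← hF, ← hF, ← hF] at s5
        have s6 : F (t + 1) B ≤ F (t + 1) ((A₀ ∪ G (t + 1)) ∪ B) :=
          hB _ (hGB.trans subset_union_right)
            (union_subset (union_subset hA2 (hGK (t + 1) htn)) hBK)
        linarith
  · right
    obtain ⟨Y, hY1, hY2, hY3⟩ := hmin n le_rfl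
    refine ⟨Y, hY1, hY2, ?_, hY3 K (hGK n le_rfl) (Subset.refl _)⟩
    by_contra hcon
    exact h ⟨n, le_rfl, Y, hY1, hY2, not_lt.1 hcon, hY3⟩

end Pool.Agent.helper42.CQ
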