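import Pool.Agent.helper24.CG.Spec

/-!
# The biased clique game, exact first order (MP_ba8873_co): definitions

THEOREM. (A) For every `ε > 0` and large `N`: `A N 2 1 ≤ (2 + ε) log N / log (3/2)`.
(B) For `b = 1`, `m ≥ 10^4` and for `b = 2`, `m ≥ 10^9`: for every `ε > 0` and large `N`:
`A N m b ≤ (2 + ε) log N / log (1 + b/m)`.
Complete paper proof: team-store MP_ba8873_helper42.md.

`H` is the list of Maker's turns, newest first; a suffix `H₁` of `H` is the history at an earlier time.
`K` is the clique that Maker owns at the end. All weights are measured in units of `log (1 + b/m)`.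
-/

set_option autoImplicit false

namespace Pool.Agent.helper42.CQ

open Finset Pool.Agent.helper24.CG

/-- The sum of the weights of the sunflowers of all sizes at time `0`. -/
noncomputable def Psi1 (N q p : ℕ) (S : ES N) : ℝ :=
  (∑ s ∈ Finset.Icc 1 q, Psi0 N s p S) / ((q : ℝ) + 1)

/-- Cost of a paid step, besides the factor `N ^ |F|`. -/
noncomputable def kP (N q p : ℕ) (c : ℝ) : ℝ :=
  Real.log (6 * c * ((q : ℝ) + 1) ^ 3) + (q : ℝ) / (p : ℝ) * Real.log N

/-- Cost of a free step. -/
noncomputable def kF (N m b q p : ℕ) : ℝ :=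
  Real.log (6 * (m : ℝ) * (q : ℝ) ^ 2 + 3 * ((q : ℝ) + 1) * (nn N m b q p : ℝ) + 1)

/-- `Chain N m b q p c H X B w`: the set `B` is reached from `∅` by paid steps, turn steps and heavy
steps (for the history `H` and the heavy sets `X`), and `w` is the logarithm of the weight. -/
inductive Chain (N m b q p : ℕ) (c : ℝ) (H : List (ES N))
    (X : Finset (Fin N) → ℕ → Finset (Fin N)) : Finset (Fin N) → ℝ → Prop
  | nil : Chain N m b q p c H X ∅ 0
  | paid (B F : Finset (Fin N)) (w : ℝ) (h : Chain N m b q p c H X B w) (hF : F.Nonempty)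
      (hd : Disjoint B F) (hc : (B ∪ F).card ≤ q) (hX : Disjoint (X B (B ∪ F).card) F) :
      Chain N m b q p c H X (B ∪ F) (w + Real.log (gain b m (rest (B ∪ F) B) H) -
        (F.card : ℝ) * Real.log N - kP N q p c)
  | turn (B : Finset (Fin N)) (v : Fin N) (w : ℝ) (E : ES N) (e : Finset (Fin N))
      (h : Chain N m b q p c H X B w) (hE : E ∈ H) (he : e ∈ E) (heB : e ∈ ed B)
      (hv : v ∈ verts E) (hvB : v ∉ B) (hc : B.card + 1 ≤ q) :
      Chain N m b q p c H X (insert v B) (w - kF N m b q p)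
  | heavy (B : Finset (Fin N)) (v : Fin N) (s : ℕ) (w : ℝ) (h : Chain N m b q p c H X B w)
      (hs : s ≤ q) (hv : v ∈ X B s) (hvB : v ∉ B) (hc : B.card + 1 ≤ q) :
      Chain N m b q p c H X (insert v B) (w - kF N m b q p)

/-- The weight (in units of `log (1 + b/m)`) of the edge `e` of `K`, if `e` is claimed in `H`;
`0` otherwise. -/
noncomputable def wt {N : ℕ} (b m : ℕ) (K : Finset (Fin N)) (H : List (ES N))
    (e : Finset (Fin N)) : ℝ :=
  (H.map fun E => if e ∈ E then
    Real.log (1 + (b : ℝ) * ((E ∩ ed K).card : ℝ) / (m : ℝ)) /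
      (((E ∩ ed K).card : ℝ) * Real.log (1 + (b : ℝ) / (m : ℝ))) else 0).sum

/-- The potential `|Y| l - (weight of the edges of Y claimed in H)`. -/
noncomputable def gf {N : ℕ} (b m : ℕ) (K : Finset (Fin N)) (H : List (ES N)) (l : ℝ)
    (Y : Finset (Fin N)) : ℝ :=
  (Y.card : ℝ) * l - ∑ e ∈ ed Y, wt b m K H e

/-- The weight between the vertex `v` and the set `Y`. -/
noncomputable def wv {N : ℕ} (b m : ℕ) (K : Finset (Fin N)) (H : List (ES N)) (v : Fin N)
    (Y : Finset (Fin N)) : ℝ :=
  ∑ u ∈ Y.erase v, wt b m K H {v, u}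

open Classical in
/-- The number of turns that contain an edge of `K` at `z` (not at `h`) and an edge of `K` at `h`
(not at `z`). -/
noncomputable def tv {N : ℕ} (K : Finset (Fin N)) (H : List (ES N)) (z h : Fin N) : ℕ :=
  (H.toFinset.filter fun E => (∃ e ∈ E, e ∈ ed K ∧ z ∈ e ∧ h ∉ e) ∧
    (∃ e ∈ E, e ∈ ed K ∧ h ∈ e ∧ z ∉ e)).card

/-- `z` and `h` are related: at least `M` common turns. -/
def rl {N : ℕ} (M : ℕ) (K : Finset (Fin N)) (H : List (ES N)) (z h : Fin N) : Prop :=
  z ∈ K ∧ h ∈ K ∧ M ≤ tv K H z h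

open Classical in
/-- The edges of `K` not at `z` that are in a common turn with an edge of `K` at `z`. -/
noncomputable def part {N : ℕ} (K : Finset (Fin N)) (H : List (ES N)) (z : Fin N) : ES N :=
  (ed K).filter fun e' => z ∉ e' ∧ ∃ E ∈ H, e' ∈ E ∧ ∃ e ∈ E, e ∈ ed K ∧ z ∈ e

/-- `z` is determined by almost every small set of vertices. -/
def WF {N : ℕ} (M : ℕ) (K : Finset (Fin N)) (H : List (ES N)) (z : Fin N) : Prop :=
  ∃ D : ES N, D ⊆ part K H z ∧ D.card = M ∧ ∀ d ∈ D, ∀ d' ∈ D, d ≠ d' → Disjoint d d'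

open Classical in
/-- The component of `z`. -/
noncomputable def cmp {N : ℕ} (M : ℕ) (K : Finset (Fin N)) (H : List (ES N)) (z : Fin N) :
    Finset (Fin N) :=
  K.filter fun u => Relation.ReflTransGen (rl M K H) z u

open Classical in
/-- The vertices in components that are large (at least `s` elements) or contain a vertex with `WF`. -/
noncomputable def Gs {N : ℕ} (M : ℕ) (K : Finset (Fin N)) (s : ℕ) (H : List (ES N)) :
    Finset (Fin N) :=
  K.filter fun z => (∃ u ∈ cmp M K H z, WF M K H u) ∨ s ≤ (cmp M K H z).card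

/-- The edge `e` is touched: at the time just before it is claimed one of its ends is in `Gs`. -/
def tch {N : ℕ} (M : ℕ) (K : Finset (Fin N)) (s : ℕ) (H : List (ES N)) (e : Finset (Fin N)) :
    Prop :=
  ∃ (H₂ : List (ES N)) (E : ES N) (H₁ : List (ES N)), H = H₂ ++ (E :: H₁) ∧ e ∈ E ∧
    ∃ z ∈ e, z ∈ Gs M K s H₁

/-- Cost of a list of pairs (representative, component), the base being `B` at the beginning. -/
noncomputable def cst {V : Type} [DecidableEq V] (l : ℝ) (f : V → V → ℝ) :
    List (V × Finset V) → Finset V → ℝ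
  | [], _ => 0
  | x :: xs, B => max 0 (l - ∑ u ∈ B, f x.1 u) + cst l f xs (B ∪ x.2)

/-- The function of Lemma 6. -/
noncomputable def Phi (χ θ e η : ℝ) : ℝ :=
  e * θ - (1 - χ) * e ^ 2 / 2 + χ * η * θ + (1 - χ) * η * max 0 (θ - e - η / 2)

end Pool.Agent.helper42.CQ
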