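import Pool.Agent.helper42.CQ.CRS

/-!
# Row cq:GFB (MP_ba8873_co): facts on `gf` and `wv`
-/

set_option autoImplicit false

namespace Pool.Agent.helper42.CQ

open Finset Pool.Agent.helper24.CG

theorem GFB_ins {V : Type} [DecidableEq V] (f : Finset V → ℝ) (v : V) (Y : Finset V)
    (hv : v ∉ Y) :
    ∑ e ∈ (insert v Y).powersetCard 2, f e = ∑ e ∈ Y.powersetCard 2, f e + ∑ u ∈ Y, f {v, u} := by
  rw [powersetCard_succ_insert hv 1, sum_union]
  · congr 1
    rw [powersetCard_one, sum_image]
    · rw [sum_map]
      rfl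
    · intro a ha b hb hab
      rw [mem_coe, mem_map] at ha hb
      obtain ⟨x, hx, rfl⟩ := ha
      obtain ⟨y, hy, rfl⟩ := hb
      simp only [Function.Embedding.coeFn_mk] at hab ⊢
      have hx' : x ∈ insert v ({y} : Finset V) := by
        rw [← hab]
        simp
      rcases mem_insert.1 hx' with h | h
      · exact absurd (h ▸ hx) hv
      · rw [mem_singleton.1 h]
  · rw [disjoint_left]
    intro e he he'
    obtain ⟨s, _, rfl⟩ := mem_image.1 he'
    exact hv ((mem_powersetCard.1 he).1 (mem_insert_self v s))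

theorem GFB_dbl {V : Type} [DecidableEq V] (f : Finset V → ℝ) (G : Finset V) :
    ∑ v ∈ G, ∑ u ∈ G.erase v, f {v, u} = 2 * ∑ e ∈ G.powersetCard 2, f e := by
  induction G using Finset.induction_on with
  | empty =>
    have h : (∅ : Finset V).powersetCard 2 = ∅ := powersetCard_eq_empty.2 (by simp)
    rw [h]
    simp
  | insert a G ha ih =>
    rw [GFB_ins f a G ha, sum_insert ha, erase_insert ha]
    have h1 : ∀ v ∈ G, ∑ u ∈ (insert a G).erase v, f {v, u} =
        f {a, v} + ∑ u ∈ G.erase v, f {v, u} := by
      intro v hv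
      have hne : a ≠ v := by
        rintro rfl
        exact ha hv
      have h2 : (insert a G).erase v = insert a (G.erase v) := erase_insert_of_ne hne
      rw [h2, sum_insert (by
        intro h
        exact ha (mem_of_mem_erase h)), pair_comm v a]
    rw [sum_congr rfl h1, sum_add_distrib, ih]
    ring

theorem GFB (hWTA : WTA_stmt) : GFB_stmt := by
  intro N m b K H l hm hb hH
  obtain ⟨hw, _⟩ := hWTA N m b K H hm hb hH
  refine ⟨?_, ?_, ?_, ?_, ?_⟩
  · intro v Y hv
    unfold gf wv ed
    rw [GFB_ins _ v Y hv, erase_eq_of_notMem hv, card_insert_of_notMem hv]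
    push_cast
    ring
  · intro v Y hv
    unfold wv
    rw [erase_eq_of_notMem hv]
  · intro v Y Z hYZ
    unfold wv
    constructor
    · exact sum_nonneg (fun u _ => (hw _).1)
    · exact sum_le_sum_of_subset_of_nonneg (erase_subset_erase _ hYZ) (fun u _ _ => (hw _).1)
  · intro A B
    unfold gf ed
    exact CRS_sub _ (fun e => (hw e).1) l A B
  · intro G
    unfold wv ed
    exact GFB_dbl _ G

end Pool.Agent.helper42.CQ
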