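import Pool.Agent.helper42.CQ.SpecC

/-!
# Row cq:GRW (MP_ba8873_co): growth of `Gs` in one turn
-/

set_option autoImplicit false

namespace Pool.Agent.helper42.CQ

open Finset Pool.Agent.helper24.CG

theorem GRW_cmp {N : ℕ} (M : ℕ) (K : Finset (Fin N)) (H : List (ES N)) (z u : Fin N) :
    u ∈ cmp M K H z ↔ u ∈ K ∧ Relation.ReflTransGen (rl M K H) z u := by
  simp only [cmp, mem_filter]

theorem GRW_Gs {N : ℕ} (M : ℕ) (K : Finset (Fin N)) (s : ℕ) (H : List (ES N)) (z : Fin N) :
    z ∈ Gs M K s H ↔ z ∈ K ∧ ((∃ u ∈ cmp M K H z, WF M K H u) ∨ s ≤ (cmp M K H z).card) := by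
  simp only [Gs, mem_filter]

theorem GRW_tv {N : ℕ} (K : Finset (Fin N)) (H : List (ES N)) (E : ES N) (u h : Fin N)
    (hu : u ∉ verts E) : tv K (E :: H) u h = tv K H u h := by
  classical
  unfold tv
  congr 1
  ext E'
  simp only [mem_filter, List.mem_toFinset, List.mem_cons]
  constructor
  · rintro ⟨h1 | h1, ⟨e, he, heK, hue, hh⟩, h3⟩
    · exfalso
      apply hu
      unfold verts
      rw [mem_biUnion]
      exact ⟨e, h1 ▸ he, hue⟩
    · exact ⟨h1, ⟨e, he, heK, hue, hh⟩, h3⟩
  · rintro ⟨h1, h2, h3⟩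
    exact ⟨Or.inr h1, h2, h3⟩

theorem GRW_part {N : ℕ} (K : Finset (Fin N)) (H : List (ES N)) (E : ES N) (u : Fin N)
    (hu : u ∉ verts E) : part K (E :: H) u = part K H u := by
  classical
  unfold part
  ext e'
  simp only [mem_filter, List.mem_cons]
  constructor
  · rintro ⟨h1, h2, E', h3 | h3, h4, e, he, heK, hue⟩
    · exfalso
      apply hu
      unfold verts
      rw [mem_biUnion]
      exact ⟨e, h3 ▸ he, hue⟩
    · exact ⟨h1, h2, E', h3, h4, e, he, heK, hue⟩
  · rintro ⟨h1, h2, E', h3, h4, h5⟩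
    exact ⟨h1, h2, E', Or.inr h3, h4, h5⟩

theorem GRW_verts {N m : ℕ} (E : ES N) (h1 : E ⊆ edges N) (h3 : E.card ≤ m) :
    (verts E).card ≤ 2 * m := by
  unfold verts
  calc (E.biUnion id).card ≤ ∑ e ∈ E, (id e).card := card_biUnion_le
    _ = ∑ _e ∈ E, 2 := by
        apply sum_congr rfl
        intro e he
        exact (mem_powersetCard.1 (h1 he)).2
    _ = E.card * 2 := by rw [sum_const, smul_eq_mul]
    _ ≤ 2 * m := by omega

theorem GRW (hREL : REL_stmt) : GRW_stmt := by
  classical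
  intro N m M s K H E hH hM
  obtain ⟨_, _, _, hcl, _⟩ := hREL N M K hM
  have hkey : ∀ z ∈ Gs M K s (E :: H) \ Gs M K s H, ∃ y ∈ verts E, z ∈ cmp M K H y ∧
      (cmp M K H y).card < s := by
    intro z hz
    obtain ⟨hz1, hz2⟩ := mem_sdiff.1 hz
    obtain ⟨hzK, hz3⟩ := (GRW_Gs M K s (E :: H) z).1 hz1
    have hzz : z ∈ cmp M K H z := (GRW_cmp M K H z z).2 ⟨hzK, Relation.ReflTransGen.refl⟩
    by_cases hex : ∃ y ∈ cmp M K H z, y ∈ verts E
    · obtain ⟨y, hy, hyE⟩ := hex
      have h1 := hcl H z y hzK hy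
      refine ⟨y, hyE, by rw [h1]; exact hzz, ?_⟩
      rw [h1]
      by_contra hcon
      exact hz2 ((GRW_Gs M K s H z).2 ⟨hzK, Or.inr (not_lt.1 hcon)⟩)
    · exfalso
      push Not at hex
      have hrl : ∀ u ∈ cmp M K H z, ∀ h, rl M K (E :: H) u h → rl M K H u h := by
        intro u hu h hr
        obtain ⟨h1, h2, h3⟩ := hr
        rw [GRW_tv K H E u h (hex u hu)] at h3
        exact ⟨h1, h2, h3⟩
      have hsub : ∀ x, Relation.ReflTransGen (rl M K (E :: H)) z x → x ∈ cmp M K H z := by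
        intro x hx
        induction hx with
        | refl => exact hzz
        | tail _ h2 ih =>
          have h3 := hrl _ ih _ h2
          exact (GRW_cmp M K H z _).2 ⟨h3.2.1, ((GRW_cmp M K H z _).1 ih).2.tail h3⟩
      have hsub' : cmp M K (E :: H) z ⊆ cmp M K H z := fun x hx =>
        hsub x ((GRW_cmp M K (E :: H) z x).1 hx).2
      apply hz2
      rw [GRW_Gs]
      refine ⟨hzK, ?_⟩
      rcases hz3 with ⟨u, hu, hW⟩ | h3
      · left
        refine ⟨u, hsub' hu, ?_⟩
        unfold WF at hW ⊢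
        rw [GRW_part K H E u (hex u (hsub' hu))] at hW
        exact hW
      · right
        exact h3.trans (card_le_card hsub')
  have hE := hH.mem E (by simp)
  calc (Gs M K s (E :: H) \ Gs M K s H).card
      ≤ ((verts E).biUnion (fun y => if (cmp M K H y).card < s then cmp M K H y else ∅)).card := by
        apply card_le_card
        intro z hz
        obtain ⟨y, hy, hzy, hlt⟩ := hkey z hz
        rw [mem_biUnion]
        exact ⟨y, hy, by rw [if_pos hlt]; exact hzy⟩
    _ ≤ ∑ y ∈ verts E, (if (cmp M K H y).card < s then cmp M K H y else ∅).card :=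
        card_biUnion_le
    _ ≤ ∑ _y ∈ verts E, s := by
        apply sum_le_sum
        intro y _
        split_ifs with h
        · exact h.le
        · simp
    _ = (verts E).card * s := by rw [sum_const, smul_eq_mul]
    _ ≤ 2 * m * s := Nat.mul_le_mul_right _ (GRW_verts E hE.1 hE.2.2)

end Pool.Agent.helper42.CQ
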