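import Pool.Agent.helper42.CQ.SpecC

/-!
# Row cq:YZO (MP_ba8873_co): the small hitting set
-/

set_option autoImplicit false

namespace Pool.Agent.helper42.CQ

open Finset Pool.Agent.helper24.CG

open Classical in
theorem YZO_tv {N : ℕ} (K : Finset (Fin N)) (H : List (ES N)) (z h : Fin N) :
    ∃ S : Finset (ES N), S.card = tv K H z h ∧ ∀ E ∈ S, E ∈ H ∧
      (∃ e ∈ E, e ∈ ed K ∧ z ∈ e ∧ h ∉ e) ∧ (∃ e ∈ E, e ∈ ed K ∧ h ∈ e ∧ z ∉ e) := by
  refine ⟨_, rfl, ?_⟩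
  intro E hE
  obtain ⟨h1, h2, h3⟩ := mem_filter.1 hE
  exact ⟨List.mem_toFinset.1 h1, h2, h3⟩

theorem YZO_fam {N m : ℕ} (M : ℕ) (K : Finset (Fin N)) (H : List (ES N)) (hH : Hist N m H)
    (z h : Fin N) (hr : rl M K H z h) :
    ∃ D : Finset (Finset (Fin N)), M ≤ D.card ∧ (∀ d ∈ D, d ⊆ K ∧ 1 ≤ d.card ∧ d.card ≤ 2) ∧
      (∀ d ∈ D, ∀ d' ∈ D, d ≠ d' → Disjoint d d') ∧
      (∀ d ∈ D, ∃ x, d = {x} ∧ x ≠ z ∧ ∃ E ∈ H, ({z, x} : Finset (Fin N)) ∈ E ∧ h ∈ verts E) := by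
  classical
  obtain ⟨_, _, hM⟩ := hr
  obtain ⟨S, hS, hS2⟩ := YZO_tv K H z h
  have hx : ∀ E ∈ S, ∃ x : Fin N, x ∈ K ∧ x ≠ z ∧ ({z, x} : Finset (Fin N)) ∈ E := by
    intro E hE
    obtain ⟨_, ⟨e, he, heK, hze, _⟩, _⟩ := hS2 E hE
    obtain ⟨h1, h2⟩ := mem_powersetCard.1 heK
    obtain ⟨a, c, hac, rfl⟩ := card_eq_two.1 h2
    rcases mem_insert.1 hze with rfl | h3
    · exact ⟨c, h1 (by simp), Ne.symm hac, he⟩
    · have := mem_singleton.1 h3
      subst this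
      exact ⟨a, h1 (by simp), hac, by rw [pair_comm]; exact he⟩
  have : Nonempty (Fin N) := ⟨z⟩
  choose! x hx1 hx2 hx3 using hx
  refine ⟨S.image (fun E => {x E}), ?_, ?_, ?_, ?_⟩
  · rw [card_image_of_injOn]
    · omega
    · intro E hE E' hE' hEE
      have hxx : x E = x E' := singleton_injective hEE
      by_contra hne
      have hd : Disjoint E E' := by
        have h1 := (hS2 E hE).1
        have h2 := (hS2 E' hE').1
        have hsy : Std.Symm (Disjoint : ES N → ES N → Prop) := ⟨fun _ _ h => h.symm⟩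
        exact hH.disj.forall h1 h2 hne
      have h3 := hx3 E hE
      have h4 := hx3 E' hE'
      rw [← hxx] at h4
      exact disjoint_left.1 hd h3 h4
  · intro d hd
    obtain ⟨E, hE, rfl⟩ := mem_image.1 hd
    exact ⟨by simpa using hx1 E hE, by simp, by simp⟩
  · intro d hd d' hd' hne
    obtain ⟨E, hE, rfl⟩ := mem_image.1 hd
    obtain ⟨E', hE', rfl⟩ := mem_image.1 hd'
    rw [disjoint_singleton_left, mem_singleton]
    intro h
    exact hne (by rw [h])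
  · intro d hd
    obtain ⟨E, hE, rfl⟩ := mem_image.1 hd
    obtain ⟨h1, _, e, he, _, hhe, _⟩ := hS2 E hE
    refine ⟨x E, rfl, hx2 E hE, E, h1, hx3 E hE, ?_⟩
    unfold verts
    rw [mem_biUnion]
    exact ⟨e, he, hhe⟩

theorem YZO (hCOL : COL_stmt) : YZO_stmt := by
  classical
  intro N m q M k K H hq hk hH hKq hlt
  have h1 : ∀ i : {x : Fin N × Fin N // rl M K H x.1 x.2}, _ := fun i =>
    YZO_fam M K H hH i.1.1 i.1.2 i.2
  choose D1 hD1 hD2 hD3 hD4 using h1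
  have h2 : ∀ i : {z : Fin N // z ∈ K ∧ WF M K H z}, ∃ D : ES N, D ⊆ part K H i.1 ∧
    D.card = M ∧ ∀ d ∈ D, ∀ d' ∈ D, d ≠ d' → Disjoint d d' := fun i => i.2.2
  choose D2 hE1 hE2 hE3 using h2
  have hcard : (Fintype.card ({x : Fin N × Fin N // rl M K H x.1 x.2} ⊕
      {z : Fin N // z ∈ K ∧ WF M K H z}) : ℝ) ≤ 2 * (q : ℝ) ^ 2 := by
    rw [Fintype.card_sum]
    have c1 : Fintype.card {x : Fin N × Fin N // rl M K H x.1 x.2} ≤ q ^ 2 := by
      rw [Fintype.card_subtype]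
      calc ((univ : Finset (Fin N × Fin N)).filter (fun x => rl M K H x.1 x.2)).card
          ≤ (K ×ˢ K).card := by
            apply card_le_card
            intro x hx
            obtain ⟨_, h3⟩ := mem_filter.1 hx
            exact mem_product.2 ⟨h3.1, h3.2.1⟩
        _ = q ^ 2 := by rw [card_product, hKq]; ring
    have c2 : Fintype.card {z : Fin N // z ∈ K ∧ WF M K H z} ≤ q := by
      rw [Fintype.card_subtype]
      calc ((univ : Finset (Fin N)).filter (fun z => z ∈ K ∧ WF M K H z)).card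
          ≤ K.card := by
            apply card_le_card
            intro x hx
            exact (mem_filter.1 hx).2.1
        _ = q := hKq
    have c3 : q ≤ q ^ 2 := by nlinarith
    have c4 : Fintype.card {x : Fin N × Fin N // rl M K H x.1 x.2} +
        Fintype.card {z : Fin N // z ∈ K ∧ WF M K H z} ≤ 2 * q ^ 2 := by omega
    exact_mod_cast c4
  have hk' : (1 : ℝ) ≤ (k : ℝ) := by exact_mod_cast hk
  have hb : (0 : ℝ) ≤ 1 - 1 / (k : ℝ) ^ 2 := by
    have : 1 / (k : ℝ) ^ 2 ≤ 1 := by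
      rw [div_le_one (by positivity)]
      exact one_le_pow₀ hk'
    linarith
  obtain ⟨Y, hYK, hYc, hY⟩ := hCOL (Fin N) ({x : Fin N × Fin N // rl M K H x.1 x.2} ⊕
      {z : Fin N // z ∈ K ∧ WF M K H z}) K (Sum.elim D1 D2) k M hk (by
      intro i
      rcases i with i | i
      · exact ⟨hD1 i, hD2 i, hD3 i⟩
      · refine ⟨(hE2 i).ge, ?_, hE3 i⟩
        intro d hd
        have h3 := hE1 i hd
        unfold part at h3
        obtain ⟨h4, _⟩ := mem_filter.1 h3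
        obtain ⟨h5, h6⟩ := mem_powersetCard.1 h4
        exact ⟨h5, by omega, by omega⟩) (by
      refine lt_of_le_of_lt ?_ hlt
      apply mul_le_mul_of_nonneg_right
      · apply mul_le_mul_of_nonneg_right hcard
        positivity
      · positivity)
  refine ⟨Y, hYK, by rw [← hKq]; exact hYc, ?_, ?_⟩
  · intro z h hr
    obtain ⟨d, hd, hdY⟩ := hY (Sum.inl ⟨(z, h), hr⟩)
    obtain ⟨x, rfl, hxz, E, hE, hzx, hh⟩ := hD4 ⟨(z, h), hr⟩ d hd
    exact ⟨x, hdY (by simp), hxz, E, hE, hzx, hh⟩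
  · intro z hz hW
    obtain ⟨d, hd, hdY⟩ := hY (Sum.inr ⟨z, hz, hW⟩)
    exact ⟨d, hE1 ⟨z, hz, hW⟩ hd, hdY⟩

end Pool.Agent.helper42.CQ
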