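import Pool.Agent.helper42.CQ.SpecC
import Pool.Agent.helper10.CQ.NT1
import Pool.Agent.helper17.CQ.CO3
import Pool.Agent.helper17.CQ.PAY
import Pool.Agent.helper17.CQ.WTB
import Pool.Agent.helper2.CQ.AL3
import Pool.Agent.helper22.CQ.ALT
import Pool.Agent.helper22.CQ.NUA
import Pool.Agent.helper22.CQ.SET
import Pool.Agent.helper25.CQ.AL2
import Pool.Agent.helper25.CQ.GS2
import Pool.Agent.helper25.CQ.RAR
import Pool.Agent.helper25.CQ.RBR
import Pool.Agent.helper25.CQ.RVI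
import Pool.Agent.helper30.CQ.MNG
import Pool.Agent.helper31.CQ.BR2
import Pool.Agent.helper31.CQ.LSS
import Pool.Agent.helper35.CQ.SU2
import Pool.Agent.helper40.CQ.REL
import Pool.Agent.helper41.CQ.L3A
import Pool.Agent.helper41.CQ.NU2
import Pool.Agent.helper42.CQ.BRK
import Pool.Agent.helper42.CQ.CLO
import Pool.Agent.helper42.CQ.COL
import Pool.Agent.helper42.CQ.CRS
import Pool.Agent.helper42.CQ.GFB
import Pool.Agent.helper42.CQ.GRW
import Pool.Agent.helper42.CQ.PY1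
import Pool.Agent.helper42.CQ.YZO
import Pool.Agent.helper45.CQ.MNA
import Pool.Agent.helper45.CQ.WTC
import Pool.Agent.helper46.CQ.LM6
import Pool.Agent.helper49.CQ.AL1
import Pool.Agent.helper49.CQ.CL1
import Pool.Agent.helper49.CQ.FIN
import Pool.Agent.helper53.CQ.BET
import Pool.Agent.helper53.CQ.KER
import Pool.Agent.helper53.CQ.L5A
import Pool.Agent.helper53.CQ.L5B
import Pool.Agent.helper53.CQ.NU1
import Pool.Agent.helper53.CQ.QQL
import Pool.Agent.helper56.CQ.ER1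
import Pool.Agent.helper56.CQ.ER2
import Pool.Agent.helper62.CQ.L5C
import Pool.Agent.helper62.CQ.LM5
import Pool.Agent.helper67.CQ.EX1
import Pool.Agent.helper67.CQ.GSA
import Pool.Agent.helper68.CQ.IN1
import Pool.Agent.helper72.CQ.CPS
import Pool.Agent.helper76.CQ.EXC
import Pool.Agent.helper76.CQ.NTC
import Pool.Agent.helper77.CQ.SE1
import Pool.Agent.helper81.CQ.WTA
import Pool.Agent.helper98.CQ.CAS
import Pool.Agent.helper98.CQ.GS1
import Pool.Agent.helper98.CQ.LM3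
import Pool.Agent.helper24.CG.IND
import Pool.Agent.helper15.CG.GRD
import Pool.Agent.helper49.CG.HLN
import Pool.Agent.helper44.CG.TUP
import Pool.Agent.helper40.CG.HIT
import Pool.Agent.helper55.CG.NUB
import Pool.Agent.helper37.CG.INI
import Pool.Agent.helper75.CG.SUN
import Pool.Agent.helper4.CG.N0B
import Pool.Agent.helper40.CG.GAM
import Pool.Agent.helper51.CG.MUL
import Pool.Agent.helper39.CG.HVY

/-!
# The biased clique game, exact first order (MP_ba8873_co): assembly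
-/

set_option autoImplicit false

namespace Pool.Agent.helper42.CQ

open Finset Pool.Agent.helper24.CG

theorem main : FIN_stmt := by
  have hHLN : HLN_stmt := HLN
  have hSUN : SUN_stmt := SUN TUP (HIT HLN) MUL INI
  have hSU2 : SU2_stmt := SU2 hSUN HVY (NUB HLN) N0B INI
  have hBR2 : BR2_stmt := BR2 KER (BRK hHLN)
  have hIN1 : IN1_stmt := IN1 INI
  have hCO3 : CO3_stmt := CO3 (IND GRD HLN) hSU2 hBR2 hIN1
  have hWTA : WTA_stmt := WTA
  have hWTB : WTB_stmt := WTB hWTA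
  have hWTC : WTC_stmt := WTC hWTA
  have hGFB : GFB_stmt := GFB hWTA
  have hPAY : PAY_stmt := PAY hWTB
  have hPY1 : PY1_stmt := PY1 hPAY hGFB
  have hREL : REL_stmt := REL
  have hYZO : YZO_stmt := YZO (COL CL1)
  have hCLO : CLO_stmt := CLO hREL
  have hGS1 : GS1_stmt := GS1 hPY1 hCLO hGFB hREL
  have hGS2 : GS2_stmt := GS2 GSA
  have hCPS : CPS_stmt := CPS hREL
  have hL3A : L3A_stmt := L3A hPAY hCLO hGS1 hGS2 hYZO hCPS hWTA hGFB
  have hLM3 : LM3_stmt := LM3 hL3A hWTA hWTB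
  have hNTC : NTC_stmt := NTC NT1
  have hEXC : EXC_stmt := EXC hNTC (EX1 hREL) hREL
  have hLSS : LSS_stmt := LSS hEXC hWTC hWTA hREL
  have hGRW : GRW_stmt := GRW hREL
  have hLM5 : LM5_stmt := LM5 (RVI LM6) L5A L5B L5C
  have hBET : BET_stmt := BET hREL hWTA
  have hAL3 : AL3_stmt := AL3 CRS hGRW hREL hWTA
  have hALT : ALT_stmt := ALT hLM3 hLM5 (AL1 hWTA) (AL2 hREL) hAL3 hWTA
  have hCAS : CAS_stmt := CAS hALT hBET hWTC
  have hSE1 : SE1_stmt := SE1 hCO3 GAM hWTB
  have hSET : SET_stmt := SET hSE1 hCAS hLSS hWTA hWTC ER1 ER2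
  have hMNA : MNA_stmt := MNA hSET RAR NUA
  have hMNG : MNG_stmt := MNG hSET RBR
  exact FIN hMNA hMNG NU1 NU2 QQL

end Pool.Agent.helper42.CQ
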