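import Pool.Agent.helper42.CQ.SpecC

/-!
# Row cq:PY1 (MP_ba8873_co): adding one vertex
-/

set_option autoImplicit false

namespace Pool.Agent.helper42.CQ

open Finset Pool.Agent.helper24.CG

theorem PY1 (hPAY : PAY_stmt) (hGFB : GFB_stmt) : PY1_stmt := by
  intro N m b q p c H X K B v w hN hm hb hq hp hc hH hKq hch hBK hvK hvB
  have hβ : 0 < Real.log (1 + (b : ℝ) / (m : ℝ)) := by
    apply Real.log_pos
    have h1 : (1 : ℝ) ≤ (b : ℝ) := by exact_mod_cast hb
    have h2 : (1 : ℝ) ≤ (m : ℝ) := by exact_mod_cast hm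
    have : 0 < (b : ℝ) / (m : ℝ) := by positivity
    linarith
  have hd : Disjoint B {v} := by
    rw [disjoint_singleton_right]
    exact hvB
  obtain ⟨B'', w', hB1, hB2, hch', hw⟩ := hPAY N m b q p c H X K B {v} w hN hm hb hq hp hc hH hKq
    hch hBK (by simpa using hvK) hd
  have hun : B ∪ {v} = insert v B := by
    rw [union_comm]
    rfl
  rw [hun] at hB2 hch' hw
  obtain ⟨g1, _⟩ := hGFB N m b K H (Real.log N / Real.log (1 + (b : ℝ) / (m : ℝ))) hm hb hH
  refine ⟨w', hch', ?_⟩
  rw [card_singleton, Nat.cast_one, one_mul] at hw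
  by_cases hv : v ∈ B''
  · have hB3 : B'' = insert v B := Subset.antisymm hB2 (insert_subset hv hB1)
    rw [hB3, sub_self, mul_zero] at hw
    have : 0 ≤ Real.log (1 + (b : ℝ) / (m : ℝ)) * max 0
      (Real.log N / Real.log (1 + (b : ℝ) / (m : ℝ)) - wv b m K H v B) :=
      mul_nonneg hβ.le (le_max_left _ _)
    linarith
  · have hB3 : B'' = B := by
      apply Subset.antisymm _ hB1
      intro x hx
      rcases mem_insert.1 (hB2 hx) with rfl | h
      · exact absurd hx hv
      · exact h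
    rw [hB3, g1 v B hvB] at hw
    have h1 : Real.log (1 + (b : ℝ) / (m : ℝ)) *
        (Real.log N / Real.log (1 + (b : ℝ) / (m : ℝ)) - wv b m K H v B) ≤
        Real.log (1 + (b : ℝ) / (m : ℝ)) * max 0
      (Real.log N / Real.log (1 + (b : ℝ) / (m : ℝ)) - wv b m K H v B) :=
      mul_le_mul_of_nonneg_left (le_max_right _ _) hβ.le
    have h2 : gf b m K H (Real.log N / Real.log (1 + (b : ℝ) / (m : ℝ))) B +
        Real.log N / Real.log (1 + (b : ℝ) / (m : ℝ)) - wv b m K H v B -
        gf b m K H (Real.log N / Real.log (1 + (b : ℝ) / (m : ℝ))) B =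
        Real.log N / Real.log (1 + (b : ℝ) / (m : ℝ)) - wv b m K H v B := by ring
    rw [h2] at hw
    linarith

end Pool.Agent.helper42.CQ
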