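import Pool.Agent.helper42.CQ.Defs

/-!
# Rows, part A: births, chains, weights, the cost of the grouped vertices
-/

set_option autoImplicit false

namespace Pool.Agent.helper42.CQ

open Finset Pool.Agent.helper24.CG

/-- SU2, from SUN, HVY, NUB, N0B (helper24/CG). Proof: for `B, s` with `|B| ≤ s`, `1 ≤ s ≤ q` apply HVY
with `𝓖 = fam N s Bk B ∅`, `ν = nu b m H B`, `τ = (2 p² m s²)⁻¹`, `W = N^s (1+b)^(s²)` (NUB, `1 ≤ nu`) and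
`n0 = nn N m b s p` (N0B): a set `X B s` with at most `nn N m b s p ≤ nn N m b q p` elements (`nn` is
monotone in `q`: ceiling of a product of monotone nonnegative factors); the filtered family of HVY is
`fam N s Bk B (X B s)`. For the other `B, s` let `X B s = ∅`. Now SUN with `q := s`, `Ψ := (q+1) Ψ`,
`c := (q+1) c`: `Psi0 N s p S ≤ (q+1) Psi1 N q p S` as `Psi0 ≥ 0` (INI). Its bound is
`2 (q+1) c (s+1) N^((s-|B|) + |B|/p)`, at most the right side, as `N ≥ 1`, `|B| ≤ s ≤ q`. (Compare the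
beginning of the proof of BIR, Pool/Agent/helper34/CG/BIR.lean.) -/
def SU2_stmt : Prop := ∀ (N m b q p : ℕ) (c : ℝ) (H : List (ES N)) (Bk : ES N) (Ψ : ES N → ℝ),
  1 ≤ N → 1 ≤ m → 1 ≤ q → 1 ≤ p → 1 ≤ c → Hist N m H → (∀ S, 0 ≤ Ψ S) → ∑ S, Ψ S ≤ c →
  (∀ S, Disjoint S Bk → Psi1 N q p S * gain b m S H ≤ Ψ S) →
  ∃ X : Finset (Fin N) → ℕ → Finset (Fin N), (∀ B s, (X B s).card ≤ nn N m b q p) ∧
    ∀ B s, B.card ≤ s → 1 ≤ s → s ≤ q →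
      ∑ F ∈ fam N s Bk B (X B s), nu b m H B F ≤
        2 * c * ((q : ℝ) + 1) ^ 2 * (N : ℝ) ^ (((s - B.card : ℕ) : ℝ) + (q : ℝ) / (p : ℝ))

/-- KER (kernels). Proof: `T 0 = 1` at `x₀`, `T 0 = 0` elsewhere, `T (n+1) y = ∑ x, T n x * κ x y`;
`∑ T (n+1) = ∑_x T n x ∑_y κ x y ≤ ∑ T n ≤ 1`. -/
def KER_stmt : Prop := ∀ (α : Type) [Fintype α] [DecidableEq α] (x₀ : α) (κ : α → α → ℝ),
  (∀ x y, 0 ≤ κ x y) → (∀ x, ∑ y, κ x y ≤ 1) →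
  ∃ T : ℕ → α → ℝ, (∀ n x, 0 ≤ T n x) ∧ (∀ n, ∑ x, T n x ≤ 1) ∧ 1 ≤ T 0 x₀ ∧
    ∀ n x y, T n x * κ x y ≤ T (n + 1) y

/-- BRK (the kernel), from HLN. Proof: let `κ B B'` be the sum of three terms. Paid:
`∑ gain b m (rest (B ∪ F) B) H / (6 c (q+1)^3 N^(q/p) N^|F|)` over the nonempty `F` disjoint from `B` with
`B ∪ F = B'`, `s := |B ∪ F| ≤ q`, `Disjoint (X B s) F`, `Disjoint (rest (B ∪ F) B) Bk`; these `F` are in
`fam N s Bk B (X B s)`, so by hypothesis the sum of this term over all `B'` is at most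
`∑_(1 ≤ s ≤ q) 1/(3(q+1)) ≤ 1/3`. Turn: `exp (-kF)` if `|B| + 1 ≤ q` and `B' = insert v B`, `v ∉ B`,
`v ∈ verts E` for some `E ∈ H` with an edge `e ∈ E`, `e ∈ ed B`: at most `|ed B| ≤ q²` turns meet `ed B` (they are
disjoint), each has at most `2m` vertices, so at most `2mq²` such `v`, and `exp kF ≥ 6mq²`: total `≤ 1/3`.
Heavy: `exp (-kF)` if `|B| + 1 ≤ q` and `B' = insert v B`, `v ∉ B`, `v ∈ X B s` for some `s ≤ q`: at most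
`(q+1) nn` such `v`, `exp kF ≥ 3 (q+1) nn`: total `≤ 1/3`. -/
def BRK_stmt : Prop := ∀ (N m b q p : ℕ) (c : ℝ) (H : List (ES N)) (Bk : ES N)
  (X : Finset (Fin N) → ℕ → Finset (Fin N)), 1 ≤ N → 1 ≤ m → 1 ≤ q → 1 ≤ p → 1 ≤ c →
  Hist N m H → (∀ B s, (X B s).card ≤ nn N m b q p) →
  (∀ B s, B.card ≤ s → 1 ≤ s → s ≤ q →
      ∑ F ∈ fam N s Bk B (X B s), nu b m H B F ≤
        2 * c * ((q : ℝ) + 1) ^ 2 * (N : ℝ) ^ (((s - B.card : ℕ) : ℝ) + (q : ℝ) / (p : ℝ))) →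
  ∃ κ : Finset (Fin N) → Finset (Fin N) → ℝ, (∀ B B', 0 ≤ κ B B') ∧ (∀ B, ∑ B', κ B B' ≤ 1) ∧
    (∀ B F : Finset (Fin N), F.Nonempty → Disjoint B F → (B ∪ F).card ≤ q →
      Disjoint (X B (B ∪ F).card) F → Disjoint (rest (B ∪ F) B) Bk →
      Real.exp (Real.log (gain b m (rest (B ∪ F) B) H) - (F.card : ℝ) * Real.log N -
        kP N q p c) ≤ κ B (B ∪ F)) ∧
    (∀ (B : Finset (Fin N)) (v : Fin N) (E : ES N) (e : Finset (Fin N)), E ∈ H → e ∈ E →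
      e ∈ ed B → v ∈ verts E → v ∉ B → B.card + 1 ≤ q →
      Real.exp (-kF N m b q p) ≤ κ B (insert v B)) ∧
    (∀ (B : Finset (Fin N)) (v : Fin N) (s : ℕ), s ≤ q → v ∈ X B s → v ∉ B → B.card + 1 ≤ q →
      Real.exp (-kF N m b q p) ≤ κ B (insert v B))

/-- BR2 (births), from KER, BRK. Proof: let `T` be as in KER for `x₀ = ∅` and the `κ` of BRK. If
`Chain B w` and `ed B` is disjoint from `Bk` then `exp w ≤ T n B` for some `n ≤ |B|` (induction on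
the chain; the sets in the chain are subsets of `B`; every step adds at least one vertex; `exp (w + x) =
exp w * exp x`). Let `β S = ∑_(n ≤ q) ∑_(K : |K| = q, ed K = S) T n K / ((q+1) N²)`. -/
def BR2_stmt : Prop := ∀ (N m b q p : ℕ) (c : ℝ) (H : List (ES N)) (Bk : ES N)
  (X : Finset (Fin N) → ℕ → Finset (Fin N)), 1 ≤ N → 1 ≤ m → 1 ≤ q → 1 ≤ p → 1 ≤ c →
  Hist N m H → (∀ B s, (X B s).card ≤ nn N m b q p) →
  (∀ B s, B.card ≤ s → 1 ≤ s → s ≤ q →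
      ∑ F ∈ fam N s Bk B (X B s), nu b m H B F ≤
        2 * c * ((q : ℝ) + 1) ^ 2 * (N : ℝ) ^ (((s - B.card : ℕ) : ℝ) + (q : ℝ) / (p : ℝ))) →
  ∃ β : ES N → ℝ, (∀ S, 0 ≤ β S) ∧ ∑ S, β S ≤ ((N : ℝ) ^ 2)⁻¹ ∧
    ∀ K : Finset (Fin N), K.card = q → Disjoint (ed K) Bk → ∀ w,
      Chain N m b q p c H X K w → Real.exp w / (((q : ℝ) + 1) * (N : ℝ) ^ 2) ≤ β (ed K)

/-- IN1, from INI (for every `s` in `1..q`; at most `q` terms, each with sum `≤ 2`). -/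
def IN1_stmt : Prop := ∀ (N q p : ℕ), 1 ≤ N → 1 ≤ q →
  (∀ S, 0 ≤ Psi1 N q p S) ∧ ∑ S, Psi1 N q p S ≤ 2 ∧
  (∀ K : Finset (Fin N), K.card = q → (((q : ℝ) + 1) * (N : ℝ) ^ q)⁻¹ ≤ Psi1 N q p (ed K))

/-- CO3, from IND, SU2, BR2, IN1. Proof: IND with `Ψ0 = Psi1 N q p` and `R H K = {((q+1) N^q)⁻¹}` if
`H = []`, otherwise `R H K` = the set of the `r ≥ 0` for which there is an `X` with
`exp w / ((q+1) N²) ≤ r` for all `w` with `Chain N m b q p (2b+3) H X K w` (SU2, BR2 with `c = 2b+3`); then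
logarithms. -/
def CO3_stmt : Prop := ∀ (N m b q p : ℕ), 1 ≤ N → 1 ≤ m → 1 ≤ q → 1 ≤ p →
  MakerWins N m b q ∅ ∅ →
  ∃ (H : List (ES N)) (K : Finset (Fin N)), Hist N m H ∧ K.card = q ∧
    (∀ e ∈ ed K, ∃ E ∈ H, e ∈ E) ∧
    Real.log (gain b m (ed K) H) ≤
      (q : ℝ) * Real.log N + Real.log ((q : ℝ) + 1) + Real.log (2 * (b : ℝ) + 3) ∧
    ∀ H₂ H₁, H = H₂ ++ H₁ → H₁ ≠ [] → ∃ X : Finset (Fin N) → ℕ → Finset (Fin N),
      ∀ w, Chain N m b q p (2 * (b : ℝ) + 3) H₁ X K w →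
        w + Real.log (gain b m (ed K) H₂) ≤
          Real.log (2 * (b : ℝ) + 3) + Real.log ((q : ℝ) + 1) + 2 * Real.log N

/-- WTA (weights). Proof: the turns are disjoint, so at most one term of the sum in `wt` is not zero (with
`j = |E ∩ ed K| ≤ |E| ≤ m`). `log (1 + bj/m) ≤ j log (1 + b/m)` (Bernoulli), and the value for `j = 0` is
`0`. Additivity: `List.map_append`, `List.sum_append`. -/
def WTA_stmt : Prop := ∀ (N m b : ℕ) (K : Finset (Fin N)) (H : List (ES N)), 1 ≤ m → 1 ≤ b →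
  Hist N m H →
  (∀ e, 0 ≤ wt b m K H e ∧ wt b m K H e ≤ 1) ∧
  (∀ H₂ H₁ e, H = H₂ ++ H₁ → wt b m K H e = wt b m K H₂ e + wt b m K H₁ e) ∧
  (∀ E ∈ H, ∀ e ∈ E, e ∈ ed K → 1 ≤ (E ∩ ed K).card ∧ (E ∩ ed K).card ≤ m ∧
    wt b m K H e = Real.log (1 + (b : ℝ) * ((E ∩ ed K).card : ℝ) / (m : ℝ)) /
      (((E ∩ ed K).card : ℝ) * Real.log (1 + (b : ℝ) / (m : ℝ)))) ∧
  (∀ e, (∀ E ∈ H, e ∉ E) → wt b m K H e = 0) ∧
  (∀ H₂ H₁ e, H = H₂ ++ H₁ → (∃ E ∈ H₁, e ∈ E) → wt b m K H₁ e = wt b m K H e)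

/-- WTB, from WTA. Proof: `log gain b m S H = ∑_(E ∈ H) log (1 + b|E ∩ S|/m)`, and with
`i = |E ∩ S| ≤ j = |E ∩ ed K|`: `log (1 + bi/m) ≥ (i/j) log (1 + bj/m)` (concavity of `log`, value `0` at
`i = 0`), which is the contribution of the edges in `E ∩ S`. Equality for `i = j`. -/
def WTB_stmt : Prop := ∀ (N m b : ℕ) (K : Finset (Fin N)) (H : List (ES N)), 1 ≤ m → 1 ≤ b →
  Hist N m H →
  (∀ S ⊆ ed K, Real.log (1 + (b : ℝ) / (m : ℝ)) * ∑ e ∈ S, wt b m K H e ≤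
    Real.log (gain b m S H)) ∧
  Real.log (1 + (b : ℝ) / (m : ℝ)) * ∑ e ∈ ed K, wt b m K H e = Real.log (gain b m (ed K) H)

/-- WTC, from WTA. `x ↦ log (1 + bx/m)/x` is decreasing (concavity), which gives the first bound
(`1 ≤ j ≤ m`). `log (1 + x) ≥ x - x²/2`, `log (1 + b/m) ≤ b/m` give the second. -/
def WTC_stmt : Prop := ∀ (N m b : ℕ) (K : Finset (Fin N)) (H : List (ES N)), 1 ≤ m → 1 ≤ b →
  Hist N m H → ∀ E ∈ H, ∀ e ∈ E, e ∈ ed K →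
  Real.log (1 + (b : ℝ)) / ((m : ℝ) * Real.log (1 + (b : ℝ) / (m : ℝ))) ≤ wt b m K H e ∧
  1 - (b : ℝ) * ((E ∩ ed K).card : ℝ) / (2 * (m : ℝ)) ≤ wt b m K H e ∧
  ((E ∩ ed K).card ≤ 1 → wt b m K H e = 1)

/-- GFB (simple facts on `gf` and `wv`). Only `0 ≤ wt` (WTA) is used. The edges of `insert v Y` that are
not edges of `Y` are the `{v, u}`, `u ∈ Y`. Submodularity: an edge of `A ∪ B` that is not an edge of `A` nor of
`B` has weight `≥ 0`, an edge of `A` and of `B` is an edge of `A ∩ B`. -/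
def GFB_stmt : Prop := ∀ (N m b : ℕ) (K : Finset (Fin N)) (H : List (ES N)) (l : ℝ), 1 ≤ m →
  1 ≤ b → Hist N m H →
  (∀ v Y, v ∉ Y → gf b m K H l (insert v Y) = gf b m K H l Y + l - wv b m K H v Y) ∧
  (∀ v Y, v ∉ Y → wv b m K H v Y = ∑ u ∈ Y, wt b m K H {v, u}) ∧
  (∀ v Y Z, Y ⊆ Z → 0 ≤ wv b m K H v Y ∧ wv b m K H v Y ≤ wv b m K H v Z) ∧
  (∀ A B, gf b m K H l (A ∩ B) + gf b m K H l (A ∪ B) ≤ gf b m K H l A + gf b m K H l B) ∧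
  (∀ G : Finset (Fin N), ∑ v ∈ G, wv b m K H v G = 2 * ∑ e ∈ ed G, wt b m K H e)

/-- PAY, from WTB. Proof: induction on `|P|`. `P = ∅`: `B'' = B`. If `X B |B ∪ P|` is disjoint from `P`: one
paid step with `F = P`, `B'' = B`: with `L = log N = β l` and
`log gain (rest (B ∪ P) B) ≥ β ∑_(e ∈ rest (B ∪ P) B) wt e` the new value is at least
`w - (|P| L - β ∑_(rest) wt) - kP = w - β (gf (B ∪ P) - gf B) - kP`. Otherwise there is `v ∈ P` in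
`X B |B ∪ P|`: heavy step to `insert v B`, then the induction hypothesis for `P.erase v`. -/
def PAY_stmt : Prop := ∀ (N m b q p : ℕ) (c : ℝ) (H : List (ES N))
  (X : Finset (Fin N) → ℕ → Finset (Fin N)) (K B P : Finset (Fin N)) (w : ℝ), 1 ≤ N → 1 ≤ m →
  1 ≤ b → 1 ≤ q → 1 ≤ p → 1 ≤ c → Hist N m H → K.card ≤ q → Chain N m b q p c H X B w →
  B ⊆ K → P ⊆ K → Disjoint B P →
  ∃ (B'' : Finset (Fin N)) (w' : ℝ), B ⊆ B'' ∧ B'' ⊆ B ∪ P ∧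
    Chain N m b q p c H X (B ∪ P) w' ∧
    w - Real.log (1 + (b : ℝ) / (m : ℝ)) *
      (gf b m K H (Real.log N / Real.log (1 + (b : ℝ) / (m : ℝ))) (B ∪ P) -
        gf b m K H (Real.log N / Real.log (1 + (b : ℝ) / (m : ℝ))) B'') -
      (P.card : ℝ) * kF N m b q p - kP N q p c ≤ w'

/-- PY1, from PAY and GFB: PAY with `P = {v}`; `B'' = B` or `B'' = insert v B`. -/
def PY1_stmt : Prop := ∀ (N m b q p : ℕ) (c : ℝ) (H : List (ES N))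
  (X : Finset (Fin N) → ℕ → Finset (Fin N)) (K B : Finset (Fin N)) (v : Fin N) (w : ℝ), 1 ≤ N →
  1 ≤ m → 1 ≤ b → 1 ≤ q → 1 ≤ p → 1 ≤ c → Hist N m H → K.card ≤ q →
  Chain N m b q p c H X B w → B ⊆ K → v ∈ K → v ∉ B →
  ∃ w' : ℝ, Chain N m b q p c H X (insert v B) w' ∧
    w - Real.log (1 + (b : ℝ) / (m : ℝ)) * max 0
      (Real.log N / Real.log (1 + (b : ℝ) / (m : ℝ)) - wv b m K H v B) -
      kF N m b q p - kP N q p c ≤ w'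

/-- REL (the relation). Proof: `tv` is symmetric and monotone in the history (the turns are distinct;
`H₁.toFinset ⊆ H.toFinset`), `part` and `WF` are monotone (`M` disjoint edges remain), so `rl`, `cmp`, `Gs` are
monotone. `rl` is symmetric, so the `cmp z` are classes. `Gs` is a union of classes. For `H = []` all `tv` and
`part` are empty, so for `M ≥ 1` the classes are `{z}`. -/
def REL_stmt : Prop := ∀ (N M : ℕ) (K : Finset (Fin N)), 1 ≤ M →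
  (∀ H z h, rl M K H z h → rl M K H h z) ∧
  (∀ H z, z ∈ K → z ∈ cmp M K H z) ∧ (∀ H z, cmp M K H z ⊆ K) ∧
  (∀ H z u, z ∈ K → u ∈ cmp M K H z → cmp M K H u = cmp M K H z) ∧
  (∀ H z u, z ∈ K → u ∈ K → u ∉ cmp M K H z → Disjoint (cmp M K H u) (cmp M K H z)) ∧
  (∀ H₂ H₁ z, cmp M K H₁ z ⊆ cmp M K (H₂ ++ H₁) z) ∧
  (∀ H₂ H₁ z, WF M K H₁ z → WF M K (H₂ ++ H₁) z) ∧
  (∀ s H₂ H₁, Gs M K s H₁ ⊆ Gs M K s (H₂ ++ H₁)) ∧ (∀ s H, Gs M K s H ⊆ K) ∧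
  (∀ s s' H, s ≤ s' → Gs M K s' H ⊆ Gs M K s H) ∧
  (∀ s H z, z ∈ Gs M K s H → cmp M K H z ⊆ Gs M K s H) ∧
  (∀ s, 2 ≤ s → Gs M K s [] = ∅)

/-- CL1 (counting colourings). Proof: induction on `D`. For `D = insert d D'`: let `A'` be the set of the
`f` that are good for `D'` and `A₁` the subset of those with `f x = a` for all `x ∈ d`. The map
`f ↦ (x ↦ if x ∈ d then a else f x)` goes from `A'` to `A₁` (`d` is disjoint from the members of `D'`), and `f` is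
determined by its image and its values on `d`, so `|A'| ≤ k^|d| |A₁| ≤ k² |A₁|`. So
`|A' \ A₁| ≤ (1 - 1/k²) |A'|`. -/
def CL1_stmt : Prop := ∀ (V : Type) [Fintype V] [DecidableEq V] (D : Finset (Finset V)) (k : ℕ)
  (a : Fin k), (∀ d ∈ D, 1 ≤ d.card ∧ d.card ≤ 2) →
  (∀ d ∈ D, ∀ d' ∈ D, d ≠ d' → Disjoint d d') →
  (((univ : Finset (V → Fin k)).filter fun f => ∀ d ∈ D, ∃ x ∈ d, f x ≠ a).card : ℝ) ≤
    (k : ℝ) ^ (Fintype.card V) * (1 - 1 / (k : ℝ) ^ 2) ^ D.card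

/-- COL (hitting sets by colouring), from CL1 (for `V = {x // x ∈ K}`). Proof: for a colour `a` and an index
`i` the number of `f : K → Fin k` for which no `d ∈ D i` is contained in `f⁻¹ a` is at most
`k^|K| (1 - 1/k²)^M`. The sum over `a` and `i` is smaller than `k^|K|`, so some `f` is good for all `a`, `i`.
Take the smallest of its `k` classes. (`α` may be replaced by the subtype; for `k = 1`, `M ≥ 1` the factor is
`0`, for `M = 0` the hypothesis says that there is no `i`.) -/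
def COL_stmt : Prop := ∀ (α : Type) [DecidableEq α] (ι : Type) [Fintype ι] (K : Finset α)
  (D : ι → Finset (Finset α)) (k M : ℕ), 1 ≤ k →
  (∀ i, M ≤ (D i).card ∧ (∀ d ∈ D i, d ⊆ K ∧ 1 ≤ d.card ∧ d.card ≤ 2) ∧
    ∀ d ∈ D i, ∀ d' ∈ D i, d ≠ d' → Disjoint d d') →
  (Fintype.card ι : ℝ) * (k : ℝ) * (1 - 1 / (k : ℝ) ^ 2) ^ M < 1 →
  ∃ Y ⊆ K, k * Y.card ≤ K.card ∧ ∀ i, ∃ d ∈ D i, d ⊆ Y

/-- YZO, from COL (with at most `q² + q ≤ 2q²` families). For `rl M K H z h`: every turn `E` counted in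
`tv K H z h` contains an edge `e_E = {z, x_E}` of `K`, `x_E ≠ h`, and an edge at `h`, so `h ∈ verts E`; different
turns are disjoint, so their `x_E` are different; `D = {{x_E}}`. For `WF M K H z`: the set `D` of `WF`. -/
def YZO_stmt : Prop := ∀ (N m q M k : ℕ) (K : Finset (Fin N)) (H : List (ES N)), 1 ≤ q → 1 ≤ k →
  Hist N m H → K.card = q → 2 * (q : ℝ) ^ 2 * (k : ℝ) * (1 - 1 / (k : ℝ) ^ 2) ^ M < 1 →
  ∃ Y ⊆ K, k * Y.card ≤ q ∧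
    (∀ z h, rl M K H z h → ∃ x ∈ Y, x ≠ z ∧ ∃ E ∈ H, ({z, x} : Finset (Fin N)) ∈ E ∧ h ∈ verts E) ∧
    (∀ z ∈ K, WF M K H z → ∃ e' ∈ part K H z, e' ⊆ Y)

/-- CLO (closure by turn steps). Let `B' = B ∪ ⋃_(z ∈ Z) cmp z`. Proof: take a chain to a set `B₁` with
`B ⊆ B₁ ⊆ B'` and value at least `w - |B₁ \ B| kF`, `|B₁|` as large as possible. If `B₁ ≠ B'` there is
`z ∈ Z` with `cmp z ⊄ B₁`. If `z ∉ B₁` then `WF z`, and there is `e' ∈ part z` with `e' ⊆ Y ⊆ B₁`: its turn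
contains an edge of `K` at `z`, so one turn step adds `z`. If `z ∈ B₁` there are (walk along a path) related
`u, h ∈ cmp z` with `u ∈ B₁`, `h ∉ B₁`: there is `x ∈ Y`, `x ≠ u`, with `{u, x}` in a turn `E` with
`h ∈ verts E`, `{u, x} ∈ ed B₁`: one turn step adds `h`. (`|B'| ≤ |K| ≤ q`.) -/
def CLO_stmt : Prop := ∀ (N m b q p M : ℕ) (c : ℝ) (H : List (ES N))
  (X : Finset (Fin N) → ℕ → Finset (Fin N)) (K B Y Z : Finset (Fin N)) (w : ℝ), 1 ≤ M →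
  Hist N m H → K.card ≤ q → Chain N m b q p c H X B w → B ⊆ K → Y ⊆ B → Z ⊆ K →
  (∀ z h, rl M K H z h → ∃ x ∈ Y, x ≠ z ∧ ∃ E ∈ H, ({z, x} : Finset (Fin N)) ∈ E ∧ h ∈ verts E) →
  (∀ z ∈ K, WF M K H z → ∃ e' ∈ part K H z, e' ⊆ Y) →
  (∀ z ∈ Z, z ∈ B ∨ WF M K H z) →
  ∃ w' : ℝ, Chain N m b q p c H X (B ∪ Z.biUnion (cmp M K H)) w' ∧
    w - (((B ∪ Z.biUnion (cmp M K H)) \ B).card : ℝ) * kF N m b q p ≤ w'

/-- GS1 (the process), from PY1, CLO, GFB, REL. Induction on the list: let `x = (v, C)`, `C = cmp v`. If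
`v ∉ B` add `v` by PY1, which costs at most `β max 0 (l - ∑_(u ∈ B₁) wt {v,u})` as `B₁ ⊆ B` (and `kF + kP`
for one new vertex), then CLO with `Z = {v}`; if `v ∈ B` only CLO. The new `B` contains `B₁ ∪ C`. -/
def GS1_stmt : Prop := ∀ (N m b q p M : ℕ) (c : ℝ) (H : List (ES N))
  (X : Finset (Fin N) → ℕ → Finset (Fin N)) (K Y : Finset (Fin N))
  (xs : List (Fin N × Finset (Fin N))) (B B₁ : Finset (Fin N)) (w : ℝ), 1 ≤ N → 1 ≤ m →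
  1 ≤ b → 1 ≤ q → 1 ≤ p → 1 ≤ c → 1 ≤ M → Hist N m H → K.card ≤ q →
  (∀ z h, rl M K H z h → ∃ x ∈ Y, x ≠ z ∧ ∃ E ∈ H, ({z, x} : Finset (Fin N)) ∈ E ∧ h ∈ verts E) →
  (∀ z ∈ K, WF M K H z → ∃ e' ∈ part K H z, e' ⊆ Y) →
  (∀ x ∈ xs, x.1 ∈ K ∧ x.2 = cmp M K H x.1) →
  Chain N m b q p c H X B w → B ⊆ K → Y ⊆ B → B₁ ⊆ B →
  ∃ (B' : Finset (Fin N)) (w' : ℝ), Chain N m b q p c H X B' w' ∧ B ⊆ B' ∧ B' ⊆ K ∧
    (∀ x ∈ xs, x.2 ⊆ B') ∧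
    w - Real.log (1 + (b : ℝ) / (m : ℝ)) *
      cst (Real.log N / Real.log (1 + (b : ℝ) / (m : ℝ))) (fun v u => wt b m K H {v, u}) xs B₁ -
      ((B' \ B).card : ℝ) * (kF N m b q p + kP N q p c) ≤ w'

/-- GSA (order and reverse order). Proof: induction on the list `Cs = C :: Cs'` (for all `B`). For `v ∈ C`
let `X v = ∑_(u ∈ B) f v u`, `X' v` the sum of `f v u` over `B' ∪ ⋃ Cs'`, and `o v` the sum over
`G \ C ⊆ B ∪ B' ∪ ⋃ Cs'`; so `X v + X' v ≥ o v` and `max 0 (l - X v) + max 0 (l - X' v) ≤ 2l - min (o v) l`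
(if both are `≤ l` clear; if one is `> l` the left side is `≤ l`). Let `v`, `v'` be the elements of `C` with the
smallest `max 0 (l - X v)`, resp. `max 0 (l - X' v')`; the sum of the two minima is at most the average over
`C` of the sums. Induction hypothesis for `Cs'`, `B ∪ C`, `B'` gives `xs`, `ys`; take `(v, C) :: xs` and
`ys ++ [(v', C)]`, where `cst l f (ys ++ [(v', C)]) B' = cst l f ys B' + max 0 (l - ∑_(u ∈ B' ∪ ⋃ ys) f v' u)`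
and `⋃ ys = ⋃ Cs'`. -/
def GSA_stmt : Prop := ∀ (V : Type) [DecidableEq V] (l : ℝ) (f : V → V → ℝ) (G B B' : Finset V)
  (Cs : List (Finset V)), 0 ≤ l → (∀ u v, 0 ≤ f u v) → (∀ C ∈ Cs, C.Nonempty) →
  (∀ v ∈ G, v ∈ B ∨ v ∈ B' ∨ ∃ C ∈ Cs, v ∈ C) →
  ∃ xs ys : List (V × Finset V), (∀ x ∈ xs, x.1 ∈ x.2 ∧ x.2 ∈ Cs) ∧
    (∀ C ∈ Cs, ∃ x ∈ xs, x.2 = C) ∧ (∀ x ∈ ys, x.1 ∈ x.2 ∧ x.2 ∈ Cs) ∧
    (∀ C ∈ Cs, ∃ x ∈ ys, x.2 = C) ∧
    cst l f xs B + cst l f ys B' ≤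
      (Cs.map fun C => 1 / (C.card : ℝ) *
        ∑ v ∈ C, (2 * l - min (∑ u ∈ G \ C, f v u) l)).sum

/-- GS2 (cost of the groups), from GSA with `B = B' = Gw`. `G = Gw ∪ ⋃ Cs`. Proof: one of the two lists of
GSA costs at most `∑_C (1/|C|) ∑_(v ∈ C) (l - min (o v) l / 2)`, `o v = ∑_(u ∈ G \ C) f v u`. If `|C| ≥ 2s` then
`(1/|C|)(l - min (o v) l / 2) ≤ l/(2s) ≤ (1/s)(l - min (∑_(u ∈ G) f v u) l / 2)`. If `s ≤ |C| < 2s` then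
`min (∑_(u ∈ G) f v u) l ≤ min (o v) l + 2s` and `(1/|C|)(l - min (o v) l / 2) ≤
(1/s)(l - min (∑_(u ∈ G) f v u) l / 2) + 1`. Sum over `v` (the `C` are disjoint); the terms for `v ∈ Gw` are
`≥ 0`. -/
def GS2_stmt : Prop := ∀ (V : Type) [DecidableEq V] (l : ℝ) (f : V → V → ℝ) (s : ℕ)
  (Gw G : Finset V) (Cs : List (Finset V)), 0 ≤ l → (∀ u v, 0 ≤ f u v ∧ f u v ≤ 1) → 1 ≤ s →
  Cs.Pairwise Disjoint → (∀ C ∈ Cs, s ≤ C.card ∧ Disjoint Gw C) →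
  (∀ v, v ∈ G ↔ v ∈ Gw ∨ ∃ C ∈ Cs, v ∈ C) →
  ∃ xs : List (V × Finset V), (∀ x ∈ xs, x.1 ∈ x.2 ∧ x.2 ∈ Cs) ∧ (∀ C ∈ Cs, ∃ x ∈ xs, x.2 = C) ∧
    cst l f xs Gw ≤ 1 / (s : ℝ) * ∑ v ∈ G, (l - min (∑ u ∈ G, f v u) l / 2) + (G.card : ℝ)

/-- CPS (components), from REL. `Gw` = the `v ∈ K` for which `cmp v` contains a `u` with `WF u`; `Cs` = the list
of the sets `cmp v` for the other `v ∈ Gs M K s H` (image, then `toList`). -/
def CPS_stmt : Prop := ∀ (N M s : ℕ) (K : Finset (Fin N)) (H : List (ES N)), 1 ≤ M →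
  ∃ (Gw : Finset (Fin N)) (Cs : List (Finset (Fin N))), Cs.Pairwise Disjoint ∧
    (∀ C ∈ Cs, s ≤ C.card ∧ Disjoint Gw C ∧ ∀ v ∈ C, v ∈ K ∧ C = cmp M K H v) ∧
    (∀ v, v ∈ Gs M K s H ↔ v ∈ Gw ∨ ∃ C ∈ Cs, v ∈ C) ∧
    (∀ v ∈ Gw, ∃ z ∈ K, WF M K H z ∧ v ∈ cmp M K H z)

/-- L3A (a chain to `K`), from PAY, CLO, GS1, GS2, YZO, CPS, WTA, GFB. Let `β = log (1 + b/m)`,
`l = log N / β`, `G = Gs M K s H₁`. Proof: YZO gives `Y₀`. PAY with `B = ∅`, `P = Y₀` costs at most `β |Y₀| l`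
(`gf Y₀ - gf B'' ≤ |Y₀| l` as `wt ≥ 0`), `|Y₀| ≤ q/k`. CLO with `Z` = the `z ∈ K` with `WF z`: the new set
contains `Gw` (CPS). GS2 with the `Cs` of CPS, `f v u = wt {v,u}` for `u ≠ v` and `0` for `u = v`, so
`∑_(u ∈ G) f v u = wv v G`; as `f v u ≤ wt {v,u}` the `cst` for `wt {v,u}` is at most the `cst` for `f`. GS1 with
`B₁ = Gw` and the list of GS2 (its pairs are `(v, cmp v)` by CPS); the new set contains `G`. Finally PAY with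
`P = K \ B`. All sets of added vertices are disjoint, so the fees are at most `q kF + (q+2) kP`
(`kF, kP ≥ 0`). -/
def L3A_stmt : Prop := ∀ (N m b q p M k s : ℕ) (c : ℝ) (H₁ : List (ES N))
  (K : Finset (Fin N)) (X : Finset (Fin N) → ℕ → Finset (Fin N)), 1 ≤ N → 1 ≤ m → 1 ≤ b →
  1 ≤ q → 1 ≤ p → 1 ≤ c → 1 ≤ M → 1 ≤ k → 1 ≤ s → Hist N m H₁ → K.card = q →
  2 * (q : ℝ) ^ 2 * (k : ℝ) * (1 - 1 / (k : ℝ) ^ 2) ^ M < 1 →
  ∃ (Y : Finset (Fin N)) (w : ℝ), Gs M K s H₁ ⊆ Y ∧ Y ⊆ K ∧ Chain N m b q p c H₁ X K w ∧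
    -(Real.log (1 + (b : ℝ) / (m : ℝ)) *
      ((q : ℝ) / (k : ℝ) * (Real.log N / Real.log (1 + (b : ℝ) / (m : ℝ))) +
        1 / (s : ℝ) * ∑ v ∈ Gs M K s H₁, (Real.log N / Real.log (1 + (b : ℝ) / (m : ℝ)) -
          min (wv b m K H₁ v (Gs M K s H₁)) (Real.log N / Real.log (1 + (b : ℝ) / (m : ℝ))) / 2) +
        (q : ℝ) + gf b m K H₁ (Real.log N / Real.log (1 + (b : ℝ) / (m : ℝ))) K -
        gf b m K H₁ (Real.log N / Real.log (1 + (b : ℝ) / (m : ℝ))) Y)) -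
      ((q : ℝ) + 2) * (kF N m b q p + kP N q p c) ≤ w

/-- LM3 (Lemma 3), from L3A, WTA, WTB. The hypothesis for the `w` of L3A and
`log gain (ed K) H₂ = β ∑_(ed K) wt H₂` (WTB for `H₂`), `gf K = q l - ∑_(ed K) wt H₁`,
`wt H = wt H₂ + wt H₁` give the claim. -/
def LM3_stmt : Prop := ∀ (N m b q p M k s : ℕ) (c R : ℝ) (H₂ H₁ : List (ES N))
  (K : Finset (Fin N)) (X : Finset (Fin N) → ℕ → Finset (Fin N)), 1 ≤ N → 1 ≤ m → 1 ≤ b →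
  1 ≤ q → 1 ≤ p → 1 ≤ c → 1 ≤ M → 1 ≤ k → 1 ≤ s → Hist N m (H₂ ++ H₁) → K.card = q →
  2 * (q : ℝ) ^ 2 * (k : ℝ) * (1 - 1 / (k : ℝ) ^ 2) ^ M < 1 →
  (∀ w, Chain N m b q p c H₁ X K w → w + Real.log (gain b m (ed K) H₂) ≤ R) →
  ∃ Y : Finset (Fin N), Gs M K s H₁ ⊆ Y ∧ Y ⊆ K ∧
    gf b m K H₁ (Real.log N / Real.log (1 + (b : ℝ) / (m : ℝ))) Y -
      1 / (s : ℝ) * ∑ v ∈ Gs M K s H₁, (Real.log N / Real.log (1 + (b : ℝ) / (m : ℝ)) -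
        min (wv b m K H₁ v (Gs M K s H₁)) (Real.log N / Real.log (1 + (b : ℝ) / (m : ℝ))) / 2) ≤
    (q : ℝ) * (Real.log N / Real.log (1 + (b : ℝ) / (m : ℝ))) -
      ∑ e ∈ ed K, wt b m K (H₂ ++ H₁) e +
      (q : ℝ) / (k : ℝ) * (Real.log N / Real.log (1 + (b : ℝ) / (m : ℝ))) + (q : ℝ) +
      (R + ((q : ℝ) + 2) * (kF N m b q p + kP N q p c)) / Real.log (1 + (b : ℝ) / (m : ℝ))

end Pool.Agent.helper42.CQ
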