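import Pool.Agent.helper42.CQ.Defs

/-!
# Rows, part B: structure of the turns, crossing time, the inequality
-/

set_option autoImplicit false

namespace Pool.Agent.helper42.CQ

open Finset Pool.Agent.helper24.CG

/-- The turn `E` is new for `z`: at its time `z` is not in `Gs`, it contains an edge of `K` at `z` and an
edge of `K` that misses the component of `z`. -/
def newT {N : ℕ} (M : ℕ) (K : Finset (Fin N)) (s : ℕ) (H : List (ES N)) (z : Fin N)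
    (E : ES N) : Prop :=
  ∃ H₂ H₁ : List (ES N), H = H₂ ++ (E :: H₁) ∧ z ∉ Gs M K s H₁ ∧
    (∃ e ∈ E, e ∈ ed K ∧ z ∈ e) ∧ ∃ e' ∈ E, e' ∈ ed K ∧ Disjoint e' (cmp M K H₁ z)

/-- NT1 (for one vertex `h`). Proof: `H` has no repetitions. Let `E_h` be the latest turn of `T` (longest
`H₁`); `h ∉ cmp z` at its `H₁`, so `rl z h` is false there and `tv K H₁ z h < M`. Every other `E ∈ T` lies in this
`H₁` and contains `e' ∋ h`, `z ∉ e'` and an edge `e` of `K` at `z`; it is counted in `tv z h` unless `h ∈ e`, i.e.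
`e = {z, h}`, which is in at most one turn. So `|T| ≤ 1 + (M - 1) + 1`. -/
def NT1_stmt : Prop := ∀ (N m M : ℕ) (K : Finset (Fin N)) (H : List (ES N)) (z h : Fin N)
  (T : Finset (ES N)), Hist N m H → 1 ≤ M → z ∈ K → h ∈ K →
  (∀ E ∈ T, ∃ H₂ H₁ : List (ES N), H = H₂ ++ (E :: H₁) ∧ h ∉ cmp M K H₁ z ∧
    (∃ e ∈ E, e ∈ ed K ∧ z ∈ e) ∧ ∃ e' ∈ E, e' ∈ ed K ∧ h ∈ e' ∧ z ∉ e') →
  T.card ≤ M + 1

/-- NTC (number of new turns), from NT1. Proof: `H` has no repetitions. Let `E₀` be the latest turn of `T`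
(longest `H₁`), `H⁰` its `H₁`. For the other `E ∈ T` choose `e'_E`; `E ∈ H⁰`, `z ∉ e'_E` (as `z ∈ cmp z`), so
`e'_E ∈ part K H⁰ z`; the `e'_E` are different (disjoint turns). `z ∉ Gs H⁰` and `z ∈ cmp z`, so not
`WF M K H⁰ z`. Take a maximal `D ⊆ {e'_E}` of pairwise disjoint edges: `|D| < M` (otherwise `M` of them show
`WF`). Every `e'_E` meets `⋃ D`, a set of at most `2(M-1)` vertices `h`. By NT1 at most `M + 1` turns for each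
`h` (`h ∈ e'_E` is not in `cmp z` at the time of `E`). So `|T| ≤ 1 + 2(M-1)(M+1) ≤ 2M²`. -/
def NTC_stmt : Prop := ∀ (N m M s : ℕ) (K : Finset (Fin N)) (H : List (ES N)) (z : Fin N)
  (T : Finset (ES N)), Hist N m H → 1 ≤ M → z ∈ K → (∀ E ∈ T, newT M K s H z E) →
  T.card ≤ 2 * M ^ 2

/-- EX1, from REL. Proof: take the longest `H₁` that occurs (all are suffixes of `H`); all `x ∈ X` are in its
`cmp z` (monotone), which has fewer than `s` elements as `z ∉ Gs`. -/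
def EX1_stmt : Prop := ∀ (N M s : ℕ) (K : Finset (Fin N)) (H : List (ES N)) (z : Fin N)
  (X : Finset (Fin N)), 1 ≤ M → z ∈ K →
  (∀ x ∈ X, ∃ H₂ H₁ : List (ES N), H = H₂ ++ H₁ ∧ z ∉ Gs M K s H₁ ∧ x ∈ cmp M K H₁ z) →
  X.card ≤ s

open Classical in
/-- EXC (Lemma 4), from NTC, EX1, REL. Proof: let `e = {z, x}` be in the set, `H = H₂ ++ (E :: H₁)`, `e ∈ E` (this
decomposition is unique); `z, x ∉ Gs H₁`. (i) `E` new for `z` or for `x`: for every vertex at most `2M²` new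
turns, each with at most `m` edges: at most `2qmM²` edges `e`. (ii) `E` not new for `z` nor for `x`: then every
edge of `E ∩ ed K` meets `cmp z` and `cmp x` (at `H₁`), which have at most `s - 1` elements. If
`x ∉ cmp z` the two components are disjoint, every edge of `E ∩ ed K` has one end in each, and
`|E ∩ ed K| ≤ (s-1)²`, a contradiction. So `x ∈ cmp M K H₁ z`: by EX1 at most `s` such `x` for every `z`, at most
`qs` edges `e`. -/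
def EXC_stmt : Prop := ∀ (N m q M s : ℕ) (K : Finset (Fin N)) (H : List (ES N)), Hist N m H →
  1 ≤ M → 2 ≤ s → K.card = q →
  ((ed K).filter fun e => (∃ E ∈ H, e ∈ E ∧ (s - 1) ^ 2 < (E ∩ ed K).card) ∧
    ¬ tch M K s H e).card ≤ 2 * q * m * M ^ 2 + q * s

open Classical in
/-- LSS (losses of the untouched edges), from EXC, WTC, WTA, REL. Proof: for `e` not touched (for `s`), in the
turn `E`, `j = |E ∩ ed K|`: `1 - wt e ≤ 1` always (`wt ≥ 0`), `1 - wt e ≤ b j/(2m)`, `wt e = 1` if `j = 1`. If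
`j > (s-1)²`: at most `2qmM² + qs` such `e` (EXC). If `e` is not touched for `2` and `j > 1`: at most
`2qmM² + 2q` such `e` (EXC with `2`). The others: `wt e = 1`, or `e` is touched for `2` and `j ≤ (s-1)²`. -/
def LSS_stmt : Prop := ∀ (N m b q M s : ℕ) (K : Finset (Fin N)) (H : List (ES N)), 1 ≤ m →
  1 ≤ b → Hist N m H → 1 ≤ M → 2 ≤ s → K.card = q → (∀ e ∈ ed K, ∃ E ∈ H, e ∈ E) →
  ∑ e ∈ (ed K).filter (fun e => ¬ tch M K s H e), (1 - wt b m K H e) ≤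
    (b : ℝ) * ((s : ℝ) - 1) ^ 2 / (2 * (m : ℝ)) * (((ed K).filter (tch M K 2 H)).card : ℝ) +
      (2 * (q : ℝ) * m * (M : ℝ) ^ 2 + q * s) + (2 * (q : ℝ) * m * (M : ℝ) ^ 2 + 2 * q) ∧
  ∑ e ∈ (ed K).filter (fun e => ¬ tch M K 2 H e), (1 - wt b m K H e) ≤
    2 * (q : ℝ) * m * (M : ℝ) ^ 2 + 2 * q

/-- GRW (growth of `Gs` in one turn), from REL. Proof: let `z` be in the difference. If the component
`C = cmp M K H z` contains no vertex of `verts E`, then `tv K (E :: H) u h = tv K H u h` and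
`part K (E :: H) u = part K H u` for `u ∈ C` (`E` has no edge at `u`), so `C` is also the component at `E :: H`,
with the same `WF`, and `z ∈ Gs H`. So `z ∈ cmp M K H y` for some `y ∈ verts E` (at most `2m` vertices), and
this component has fewer than `s` elements, as `z ∉ Gs H`. -/
def GRW_stmt : Prop := ∀ (N m M s : ℕ) (K : Finset (Fin N)) (H : List (ES N)) (E : ES N),
  Hist N m (E :: H) → 1 ≤ M → (Gs M K s (E :: H) \ Gs M K s H).card ≤ 2 * m * s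

/-- CRS (crossing). Let `F t Y = |Y| l - ∑_(e in Y) w t e`; it is submodular, and a minimizer at `t` is a
minimizer of `F t` over `{Y : G t ⊆ Y ⊆ K}`. At `t = 0` the only minimizer is `∅` (`l > 0`), of size
`0 < κ`. If at `t = n` there is no minimizer of size `≥ κ`, take any minimizer `Y`: second alternative. Otherwise
let `t ≥ 1` be the first time with a minimizer `B`, `|B| ≥ κ`, and let `A₀` be a minimizer at `t - 1`,
`|A₀| < κ`, `A' = A₀ ∪ G t`, `A = A' ∩ B`. `|A'| ≤ κ + D`;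
`F t A' ≤ F (t-1) A' ≤ F (t-1) A₀ + D l ≤ F (t-1) B + D l ≤ F t B + d + D l`; `F t (A' ∪ B) ≥ F t B`, so by
submodularity `F t A ≤ F t A' + F t B - F t (A' ∪ B) ≤ F t A'`. -/
def CRS_stmt : Prop := ∀ (V : Type) [DecidableEq V] (K : Finset V) (n : ℕ) (G : ℕ → Finset V)
  (w : ℕ → Finset V → ℝ) (l κ d : ℝ) (D : ℕ), 0 < l → 0 < κ → (∀ t ≤ n, G t ⊆ K) →
  (∀ t < n, G t ⊆ G (t + 1)) → (∀ t < n, (G (t + 1) \ G t).card ≤ D) → G 0 = ∅ →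
  (∀ e, w 0 e = 0) → (∀ t e, 0 ≤ w t e) → (∀ t < n, ∀ e, w t e ≤ w (t + 1) e) →
  (∀ t < n, ∑ e ∈ K.powersetCard 2, (w (t + 1) e - w t e) ≤ d) →
  (∃ t, 1 ≤ t ∧ t ≤ n ∧ ∃ A B : Finset V, G t ⊆ A ∧ A ⊆ B ∧ B ⊆ K ∧
    (A.card : ℝ) ≤ κ + D ∧ κ ≤ (B.card : ℝ) ∧
    (∀ Y, G t ⊆ Y → Y ⊆ K → (B.card : ℝ) * l - ∑ e ∈ B.powersetCard 2, w t e ≤
      (Y.card : ℝ) * l - ∑ e ∈ Y.powersetCard 2, w t e) ∧
    (A.card : ℝ) * l - ∑ e ∈ A.powersetCard 2, w t e ≤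
      (B.card : ℝ) * l - ∑ e ∈ B.powersetCard 2, w t e + (D : ℝ) * l + d) ∨
  (∃ Y, G n ⊆ Y ∧ Y ⊆ K ∧ (Y.card : ℝ) < κ ∧
    (Y.card : ℝ) * l - ∑ e ∈ Y.powersetCard 2, w n e ≤
      (K.card : ℝ) * l - ∑ e ∈ K.powersetCard 2, w n e)

/-- LM6 (Lemma 6). `a ≥ 1/2` follows (from `(1-a)(1+2a) ≤ χ(1+2a) ≤ 1`). Let `r = 2 - 1/a ∈ [0,1]`.
Case 1, `e ≥ r θ`: `η ≥ θ/a - e ≥ 0`, so `Phi ≥ eθ - (1-χ)e²/2 + χθ(θ/a - e) = χθ²/a + (1-χ) e (θ - e/2)`; the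
function `e (θ - e/2)` is concave in `e` and takes the same value `θ²(2a-1)/(2a²)` at `e = rθ` and at
`e = θ/a` (`e ≤ θ/a`), so `Phi ≥ θ²(2a - (1-χ))/(2a²) ≥ θ²/(2a) ≥ 2χθ²`.
Case 2, `e < rθ` and `η ≥ 2(θ-e)`: `Phi ≥ eθ - (1-χ)e²/2 + 2χθ(θ-e) = 2χθ² + e((1-2χ)θ - (1-χ)e/2)`, and the
bracket is at least `θ((1-2χ) - (1-χ)(2-1/a)/2) = θ((1-χ)/(2a) - χ) ≥ 0`.
Case 3, `e < rθ` and `η < 2(θ-e)`: with `t = e + η ∈ [θ/a, 2θ-e]`: `Phi = tθ - (1-χ)t²/2`, concave in `t`; at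
`t = θ/a` it is `θ²/a - (1-χ)θ²/(2a²) ≥ θ²/(2a) ≥ 2χθ²`, at `t = 2θ-e` it is the value of case 2. -/
def LM6_stmt : Prop := ∀ a χ θ e η : ℝ, 0 < a → a ≤ 1 → 0 ≤ χ → 1 - χ ≤ a →
  χ * (1 + 2 * a) ≤ 1 → 4 * a * χ ≤ 1 → 0 ≤ e → 0 ≤ η → a * e ≤ θ → θ ≤ a * (e + η) →
  2 * χ * θ ^ 2 ≤ Phi χ θ e η

/-- RVI (real variables), from LM6. Let `θ = l - aγ`, `a e ≤ θ ≤ a(e + η')` with `η' = η + δ/a`.
`Phi χ θ e η' ≤ Phi χ θ e η + θ δ/a` (for `c = θ - e ≤ θ`, `η ≤ η'`: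
`η' max 0 (c - η'/2) ≤ η max 0 (c - η/2) + (η' - η) θ`), `0 ≤ θ ≤ l`. By h4 `dF ≥ ηθ - nX`, so
`dF + χ nX ≥ χ(dF + nX) ≥ χηθ` and `dF + χ nX ≥ ηθ - (1-χ) nX ≥ ηθ - (1-χ)(eη + η²/2)`, i.e.
`dF + χ nX ≥ χηθ + (1-χ) η max 0 (θ - e - η/2)`. So
`f gG - sE - (1-f) HG - X ≥ f(γl - aγ²/2) + eθ - (1-χ) e²/2 + dF + χ nX - χQ²/2
≥ f(l² - θ²)/(2a) + Phi χ θ e η - χQ²/2 ≥ f(l² - θ²)/(2a) + 2χθ² - lδ/a - χQ²/2`, and `f/(2a) ≥ 2χ`,
`θ² ≤ l²`. (The terms with `dG`: `-f - (1-f) + 1 = 0`.) -/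
def RVI_stmt : Prop := ∀ a χ f l δ γ e η dG dE dF nE nX gG sE HG X Q : ℝ, 0 < a → a ≤ 1 →
  0 ≤ χ → 1 - χ ≤ a → χ * (1 + 2 * a) ≤ 1 → 4 * a * χ ≤ f → f ≤ 1 → 0 ≤ l → 0 ≤ δ → 0 ≤ γ →
  0 ≤ e → 0 ≤ η → 0 ≤ dG → 0 ≤ dE → 0 ≤ dF → 0 ≤ nE → 0 ≤ nX →
  γ * l - a * γ ^ 2 / 2 - dG ≤ gG →
  sE ≤ a * e * γ + dE + nE - e * l →
  X ≤ χ * Q ^ 2 / 2 - dG - dE - dF - χ * (nE + nX) →
  η * l ≤ a * η * γ + dF + nX →
  nX ≤ e * η + η ^ 2 / 2 → nE ≤ e ^ 2 / 2 → HG ≤ dG →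
  a * (γ + e) ≤ l → l ≤ a * (γ + e + η) + δ →
  X + 2 * χ * l ^ 2 - χ * Q ^ 2 / 2 - l * δ / a ≤ f * gG - sE - (1 - f) * HG

/-- L5A (inside `G`). Let `γ = |G|`, `W v` the inner sum. `w ≤ a + max 0 (w - a)`; at most `γ²/2` pairs. First
claim: `∑_v W v = 2 ∑_(pairs of G in C) w`, `min x l = x - max 0 (x - l)`, so the left side minus
`γ l - ∑ w` is `(1/2) ∑_v max 0 (W v - l)`, and `W v ≤ aγ + ∑_u d {v,u} ≤ l + ∑_u d {v,u}`. -/
def L5A_stmt : Prop := ∀ (V : Type) [DecidableEq V] (G : Finset V) (w : Finset V → ℝ)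
  (C : Finset (Finset V)) (l a : ℝ), (∀ e, 0 ≤ w e ∧ w e ≤ 1) → 0 ≤ l → 0 < a → a ≤ 1 →
  a * (G.card : ℝ) ≤ l →
  ∑ v ∈ G, (l - min (∑ u ∈ G.erase v, if {v, u} ∈ C then w {v, u} else 0) l / 2) ≤
    (G.card : ℝ) * l - ∑ e ∈ G.powersetCard 2 ∩ C, w e +
      ∑ e ∈ G.powersetCard 2 ∩ C, max 0 (w e - a) ∧
  (G.card : ℝ) * l - a * (G.card : ℝ) ^ 2 / 2 - ∑ e ∈ G.powersetCard 2 ∩ C, max 0 (w e - a) ≤
    (G.card : ℝ) * l - ∑ e ∈ G.powersetCard 2 ∩ C, w e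

/-- L5B (from `A` to `B`). The pairs of `B` that are not pairs of `A` have an end in `B \ A`. Those that meet
`G`: at most `|B \ A| |G|`, `w ≤ a + max 0 (w - a)`. The others: `w ≤ 1`; between `A \ G` and `B \ A`, or
inside `B \ A`. -/
def L5B_stmt : Prop := ∀ (V : Type) [DecidableEq V] (G A B : Finset V) (w : Finset V → ℝ)
  (C : Finset (Finset V)) (a : ℝ), G ⊆ A → A ⊆ B → (∀ e, 0 ≤ w e ∧ w e ≤ 1) → 0 < a →
  ∑ e ∈ (B.powersetCard 2 \ A.powersetCard 2) ∩ C, w e ≤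
    a * ((B \ A).card : ℝ) * (G.card : ℝ) +
      ∑ e ∈ ((B.powersetCard 2 \ A.powersetCard 2) ∩ C).filter (fun e => ¬ Disjoint e G),
        max 0 (w e - a) +
      ((((B.powersetCard 2 \ A.powersetCard 2) ∩ C).filter (fun e => Disjoint e G)).card : ℝ) ∧
  ((((B.powersetCard 2 \ A.powersetCard 2) ∩ C).filter (fun e => Disjoint e G)).card : ℝ) ≤
    ((A \ G).card : ℝ) * ((B \ A).card : ℝ) + ((B \ A).card : ℝ) ^ 2 / 2

/-- L5C (the sum over `T`). `K` has at most `|K|²/2` pairs. A pair outside `C` contributes at most `χ` to the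
left side. A pair `e ∈ C` that meets `G` contributes at most `χ - max 0 (w e - a)` (which is `≥ 0`, as
`w e - a ≤ 1 - a ≤ χ`). A pair `e ∈ C` disjoint from `G` is not in `T` and contributes `0`. The three sets on
the right (pairs of `G`; pairs of `A` not of `G`; pairs of `B` not of `A`) are disjoint. -/
def L5C_stmt : Prop := ∀ (V : Type) [DecidableEq V] (K G A B : Finset V) (w : Finset V → ℝ)
  (C T : Finset (Finset V)) (a χ : ℝ), G ⊆ A → A ⊆ B → B ⊆ K → (∀ e, 0 ≤ w e ∧ w e ≤ 1) →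
  C ⊆ K.powersetCard 2 → T ⊆ K.powersetCard 2 → (∀ e ∈ C, Disjoint e G → e ∉ T) →
  0 < a → a ≤ 1 → 0 ≤ χ → 1 - χ ≤ a →
  ∑ e ∈ T, (χ - max 0 (w e - a)) ≤ χ * (K.card : ℝ) ^ 2 / 2 -
    ∑ e ∈ G.powersetCard 2 ∩ C, max 0 (w e - a) -
    ∑ e ∈ ((A.powersetCard 2 \ G.powersetCard 2) ∩ C).filter (fun e => ¬ Disjoint e G),
      max 0 (w e - a) -
    ∑ e ∈ ((B.powersetCard 2 \ A.powersetCard 2) ∩ C).filter (fun e => ¬ Disjoint e G),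
      max 0 (w e - a) -
    χ * (((((A.powersetCard 2 \ G.powersetCard 2) ∩ C).filter (fun e => Disjoint e G)).card : ℝ) +
      ((((B.powersetCard 2 \ A.powersetCard 2) ∩ C).filter (fun e => Disjoint e G)).card : ℝ))

/-- LM5 (Lemma 5), from RVI, L5A, L5B (for `G, A, B` and for `G, G, A`), L5C. Let `γ = |G|`, `e = |A \ G|`,
`η = |B \ A|`, `g Y = |Y| l - ∑_(Y ∩ C) w`. `dG, dE, dF` = the three sums of `max 0 (w - a)` in L5C, `nE, nX` the two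
numbers there. `gG = g G`, `sE = g G - g A`, `HG = ∑_(v ∈ G) (l - min (W v) l / 2) - g G ≤ dG`, `Q = |K|`, `X` = the
sum over `T`. Then `g A - (1-f) ∑ (l - min (W v) l / 2) = f g G - sE - (1-f) HG`. The hypotheses of RVI: L5A,
L5B, L5C; the fourth is `g B ≤ g A`. -/
def LM5_stmt : Prop := ∀ (V : Type) [DecidableEq V] (K G A B : Finset V) (w : Finset V → ℝ)
  (C T : Finset (Finset V)) (l a χ f δ : ℝ), G ⊆ A → A ⊆ B → B ⊆ K →
  (∀ e, 0 ≤ w e ∧ w e ≤ 1) → C ⊆ K.powersetCard 2 → T ⊆ K.powersetCard 2 →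
  (∀ e ∈ C, Disjoint e G → e ∉ T) → 0 ≤ l → 0 < a → a ≤ 1 → 0 ≤ χ → 1 - χ ≤ a →
  χ * (1 + 2 * a) ≤ 1 → 4 * a * χ ≤ f → f ≤ 1 → a * (A.card : ℝ) ≤ l →
  l ≤ a * (B.card : ℝ) + δ → 0 ≤ δ →
  (B.card : ℝ) * l - ∑ e ∈ B.powersetCard 2 ∩ C, w e ≤
    (A.card : ℝ) * l - ∑ e ∈ A.powersetCard 2 ∩ C, w e →
  ∑ e ∈ T, (χ - max 0 (w e - a)) + 2 * χ * l ^ 2 - χ * (K.card : ℝ) ^ 2 / 2 - l * δ / a ≤
    ((A.card : ℝ) * l - ∑ e ∈ A.powersetCard 2 ∩ C, w e) -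
      (1 - f) * ∑ v ∈ G, (l - min (∑ u ∈ G.erase v, if {v, u} ∈ C then w {v, u} else 0) l / 2)

open Classical in
/-- BET (the case without crossing), from REL, WTA. Let `y = |Y|`, `S` = the first sum on the right. All edges
are claimed. An edge that misses `Y` is not touched (`Gs H₁ ⊆ Gs H ⊆ Y`). The edges of `K` with an end in
`K \ Y`: `y(q-y)` of them meet `Y` (`wt ≥ a₀`), the others miss `Y`, so the sum of their `wt` is at least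
`(q-y)(q+y-1)/2 - (1-a₀) y (q-y) - S`; by `gf Y ≤ gf K` it is at most `(q-y) l ≤ (q-y) q/2`. So
`(q-y) y (a₀ - 1/2) ≤ S + (q-y)/2`. `q - y ≥ q (1 - 1/(2a))`, and a touched edge meets `Y`, so there are at most
`y q` of them. -/
def BET_stmt : Prop := ∀ (N m b q M s : ℕ) (l a a₀ : ℝ) (H : List (ES N)) (K Y : Finset (Fin N)),
  1 ≤ m → 1 ≤ b → 1 ≤ M → Hist N m H → K.card = q → (∀ e ∈ ed K, ∃ E ∈ H, e ∈ E) →
  Gs M K s H ⊆ Y → Y ⊆ K → gf b m K H l Y ≤ gf b m K H l K → 0 ≤ l → l ≤ (q : ℝ) / 2 →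
  1 / 2 < a → a ≤ 1 → 1 / 2 < a₀ → a₀ ≤ 1 → (Y.card : ℝ) ≤ l / a →
  (∀ e ∈ ed K, a₀ ≤ wt b m K H e) →
  (((ed K).filter (tch M K s H)).card : ℝ) * ((1 - 1 / (2 * a)) * (a₀ - 1 / 2)) ≤
    ∑ e ∈ (ed K).filter (fun e => ¬ tch M K s H e), (1 - wt b m K H e) + (q : ℝ) / 2

end Pool.Agent.helper42.CQ
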