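import Pool.Agent.helper42.CQ.SpecA
import Pool.Agent.helper42.CQ.SpecB

/-!
# Rows, part C: assembly, asymptotics, numbers
-/

set_option autoImplicit false

namespace Pool.Agent.helper42.CQ

open Finset Pool.Agent.helper24.CG

/-- The error term. -/
noncomputable def er (N m b q p k s : ℕ) (c R : ℝ) : ℝ :=
  (q : ℝ) / (k : ℝ) * (Real.log N / Real.log (1 + (b : ℝ) / (m : ℝ))) + (q : ℝ) +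
    (R + ((q : ℝ) + 2) * (kF N m b q p + kP N q p c)) / Real.log (1 + (b : ℝ) / (m : ℝ)) +
    4 * (m : ℝ) * (s : ℝ) * (Real.log N / Real.log (1 + (b : ℝ) / (m : ℝ))) + (m : ℝ)

/-- The smallest possible weight of a claimed edge. -/
noncomputable def aa (m b : ℕ) : ℝ :=
  Real.log (1 + (b : ℝ)) / ((m : ℝ) * Real.log (1 + (b : ℝ) / (m : ℝ)))

open Classical in
/-- AL1 (weights at an earlier time), from WTA. `C` = the edges of `K` claimed in `H₁`: for them `wt H₁ = wt H`,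
for the other edges `wt H₁ = 0`. -/
def AL1_stmt : Prop := ∀ (N m b : ℕ) (l : ℝ) (H₂ H₁ : List (ES N)) (K : Finset (Fin N)), 1 ≤ m →
  1 ≤ b → Hist N m (H₂ ++ H₁) →
  (∀ Y, Y ⊆ K → gf b m K H₁ l Y = (Y.card : ℝ) * l -
    ∑ e ∈ Y.powersetCard 2 ∩ (ed K).filter (fun e => ∃ E ∈ H₁, e ∈ E), wt b m K (H₂ ++ H₁) e) ∧
  (∀ G, G ⊆ K → ∀ v ∈ G, wv b m K H₁ v G = ∑ u ∈ G.erase v,
    if {v, u} ∈ (ed K).filter (fun e => ∃ E ∈ H₁, e ∈ E) then wt b m K (H₂ ++ H₁) {v, u} else 0)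

/-- AL2 (touched edges), from REL. Proof: let `e` be touched, `H₂ ++ H₁ = H' ++ (E :: H₁')`, `e ∈ E`,
`z ∈ e`, `z ∈ Gs H₁'`. As `e` is in a turn of `H₁` and the turns are disjoint, `E` is that turn, so `H₁'` is a
suffix of `H₁`, and `z ∈ Gs H₁' ⊆ Gs H₁`. -/
def AL2_stmt : Prop := ∀ (N m M s : ℕ) (H₂ H₁ : List (ES N)) (K e : Finset (Fin N)), 1 ≤ M →
  Hist N m (H₂ ++ H₁) → (∃ E ∈ H₁, e ∈ E) → Disjoint e (Gs M K s H₁) →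
  ¬ tch M K s (H₂ ++ H₁) e

/-- AL3 (crossing), from CRS, GRW, REL, WTA. Proof: `n = H.length`, `G t = Gs M K s (H.drop (n - t))`,
`w t e = wt b m K (H.drop (n - t)) e`, `D = 2ms`, `d = m` (one turn has at most `m` edges, of weight at
most `1`). For the first alternative of CRS: `t ≥ 1`, `H₁ = H.drop (n - t) ≠ []`, `H₂ = H.take (n - t)`. -/
def AL3_stmt : Prop := ∀ (N m b M s : ℕ) (l κ : ℝ) (H : List (ES N)) (K : Finset (Fin N)),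
  1 ≤ m → 1 ≤ b → 1 ≤ M → 2 ≤ s → Hist N m H → 0 < l → 0 < κ →
  (∃ (H₂ H₁ : List (ES N)) (A B : Finset (Fin N)), H = H₂ ++ H₁ ∧ H₁ ≠ [] ∧
    Gs M K s H₁ ⊆ A ∧ A ⊆ B ∧ B ⊆ K ∧ (A.card : ℝ) ≤ κ + 2 * (m : ℝ) * (s : ℝ) ∧
    κ ≤ (B.card : ℝ) ∧
    (∀ Y, Gs M K s H₁ ⊆ Y → Y ⊆ K → gf b m K H₁ l B ≤ gf b m K H₁ l Y) ∧
    gf b m K H₁ l A ≤ gf b m K H₁ l B + 2 * (m : ℝ) * (s : ℝ) * l + (m : ℝ)) ∨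
  (∃ Y : Finset (Fin N), Gs M K s H ⊆ Y ∧ Y ⊆ K ∧ (Y.card : ℝ) < κ ∧
    gf b m K H l Y ≤ gf b m K H l K)

open Classical in
/-- ALT, from LM3, LM5, AL1, AL2, AL3, WTA. Proof: AL3 with `κ = l/a - 2ms`. Second alternative: done. First
alternative: `H₁ ≠ []`, sets `A ⊆ B` with `|A| ≤ l/a`, `|B| ≥ l/a - 2ms`. LM3 for this splitting (`X` from the
hypothesis) gives `Y`, `Gs H₁ ⊆ Y ⊆ K`, with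
`gf Y - (1/s) Σ_(v ∈ G) (l - min (wv v G) l / 2) ≤ q l - Σ wt + (q/k) l + q + (R + ..)/β`, and
`gf A ≤ gf B + 2ms l + m ≤ gf Y + 2ms l + m`. LM5 with `w = wt b m K H`, `C` = the edges of `K` claimed in `H₁`,
`T = (ed K).filter (tch M K s H)` (AL1, AL2), `f = 1 - 1/s`, `δ = 2msa`; `l δ/a = 2ms l`. -/
def ALT_stmt : Prop := ∀ (N m b q p M k s : ℕ) (c R a χ l : ℝ) (H : List (ES N))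
  (K : Finset (Fin N)), 1 ≤ N → 1 ≤ m → 1 ≤ b → 1 ≤ q → 1 ≤ p → 1 ≤ c → 1 ≤ M → 1 ≤ k →
  2 ≤ s → Hist N m H → K.card = q →
  2 * (q : ℝ) ^ 2 * (k : ℝ) * (1 - 1 / (k : ℝ) ^ 2) ^ M < 1 →
  (∀ H₂ H₁, H = H₂ ++ H₁ → H₁ ≠ [] → ∃ X : Finset (Fin N) → ℕ → Finset (Fin N),
    ∀ w, Chain N m b q p c H₁ X K w → w + Real.log (gain b m (ed K) H₂) ≤ R) →
  l = Real.log N / Real.log (1 + (b : ℝ) / (m : ℝ)) →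
  0 < a → a ≤ 1 → 0 ≤ χ → 1 - χ ≤ a → χ * (1 + 2 * a) ≤ 1 → 4 * a * χ ≤ 1 - 1 / (s : ℝ) →
  2 * (m : ℝ) * (s : ℝ) < l / a →
  (∑ e ∈ (ed K).filter (tch M K s H), (χ - max 0 (wt b m K H e - a)) + 2 * χ * l ^ 2 -
      χ * (q : ℝ) ^ 2 / 2 ≤
    (q : ℝ) * l - ∑ e ∈ ed K, wt b m K H e + er N m b q p k s c R) ∨
  (∃ Y : Finset (Fin N), Gs M K s H ⊆ Y ∧ Y ⊆ K ∧
    (Y.card : ℝ) < l / a - 2 * (m : ℝ) * (s : ℝ) ∧ gf b m K H l Y ≤ gf b m K H l K)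

open Classical in
/-- CAS, from ALT and BET (with `a₀ = aa m b`; `|Y| ≤ l/a`; the hypothesis on `wt` is WTC). -/
def CAS_stmt : Prop := ∀ (N m b q p M k s : ℕ) (c R a χ l : ℝ) (H : List (ES N))
  (K : Finset (Fin N)), 1 ≤ N → 1 ≤ m → 1 ≤ b → 1 ≤ q → 1 ≤ p → 1 ≤ c → 1 ≤ M → 1 ≤ k →
  2 ≤ s → Hist N m H → K.card = q → (∀ e ∈ ed K, ∃ E ∈ H, e ∈ E) →
  2 * (q : ℝ) ^ 2 * (k : ℝ) * (1 - 1 / (k : ℝ) ^ 2) ^ M < 1 →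
  (∀ H₂ H₁, H = H₂ ++ H₁ → H₁ ≠ [] → ∃ X : Finset (Fin N) → ℕ → Finset (Fin N),
    ∀ w, Chain N m b q p c H₁ X K w → w + Real.log (gain b m (ed K) H₂) ≤ R) →
  l = Real.log N / Real.log (1 + (b : ℝ) / (m : ℝ)) → l ≤ (q : ℝ) / 2 →
  1 / 2 < a → a ≤ 1 → 0 ≤ χ → 1 - χ ≤ a → χ * (1 + 2 * a) ≤ 1 → 4 * a * χ ≤ 1 - 1 / (s : ℝ) →
  1 / 2 < aa m b → aa m b ≤ 1 → 2 * (m : ℝ) * (s : ℝ) < l →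
  (∑ e ∈ (ed K).filter (tch M K s H), (χ - max 0 (wt b m K H e - a)) + 2 * χ * l ^ 2 -
      χ * (q : ℝ) ^ 2 / 2 ≤
    (q : ℝ) * l - ∑ e ∈ ed K, wt b m K H e + er N m b q p k s c R) ∨
  (((ed K).filter (tch M K s H)).card : ℝ) * ((1 - 1 / (2 * a)) * (aa m b - 1 / 2)) ≤
    ∑ e ∈ (ed K).filter (fun e => ¬ tch M K s H e), (1 - wt b m K H e) + (q : ℝ) / 2

/-- ER1 (asymptotics 1). `l → ∞` with `N`, `q/l → 2 + ε`, so `q → ∞` and `l ≤ q`, and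
`log q = o(q)`. `M ≤ k² (log (2 k q²) + 1) + 1 = O(log q)`, so `2qmM² + q(s+2) = O(q log² q) = o(q²)`.
`(1 - 1/k²)^M ≤ exp (-M/k²) ≤ exp (-log (2kq²) - 1) < 1/(2kq²)` (for `k = 1` the left side is `0`, as `M ≥ 1`). -/
def ER1_stmt : Prop := ∀ (m b k s : ℕ) (ε δ : ℝ), 1 ≤ m → 1 ≤ b → 1 ≤ k → 2 ≤ s → 0 < ε →
  0 < δ → ∃ N₀ : ℕ, ∀ N ≥ N₀, ∀ (l : ℝ) (q M : ℕ),
  l = Real.log N / Real.log (1 + (b : ℝ) / (m : ℝ)) → q = ⌈(2 + ε) * l⌉₊ →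
  M = ⌈(k : ℝ) ^ 2 * (Real.log (2 * (k : ℝ) * (q : ℝ) ^ 2) + 1)⌉₊ →
  1 ≤ N ∧ 1 ≤ q ∧ 1 ≤ M ∧ 0 ≤ l ∧ (2 + ε) * l ≤ q ∧
  2 * (q : ℝ) ^ 2 * (k : ℝ) * (1 - 1 / (k : ℝ) ^ 2) ^ M < 1 ∧
  2 * (m : ℝ) * (s : ℝ) < l ∧ 4 * (m : ℝ) < l ∧
  2 * (q : ℝ) * m * (M : ℝ) ^ 2 + q * s ≤ δ * (q : ℝ) ^ 2 ∧
  2 * (q : ℝ) * m * (M : ℝ) ^ 2 + 2 * q ≤ δ * (q : ℝ) ^ 2 ∧
  (Real.log ((q : ℝ) + 1) + Real.log (2 * (b : ℝ) + 3)) / Real.log (1 + (b : ℝ) / (m : ℝ)) ≤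
    δ * (q : ℝ) ^ 2 ∧
  (q : ℝ) ≤ δ * (q : ℝ) ^ 2

/-- ER2 (asymptotics 2). With `p = q²`, `log N = β l ≤ β q`: `nn N m b q q² ≤ C q^8 + 1`, so
`kF = O(log q)`, and `kP ≤ log (6 c (q+1)³) + β = O(log q)`; `R = O(q)`. So everything in `er` besides
`(q/k) l ≤ q²/k` is `O(q log q)`. -/
def ER2_stmt : Prop := ∀ (m b k s : ℕ) (ε δ : ℝ), 1 ≤ m → 1 ≤ b → 1 ≤ k → 2 ≤ s → 0 < ε →
  0 < δ → ∃ N₀ : ℕ, ∀ N ≥ N₀, ∀ (l : ℝ) (q : ℕ),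
  l = Real.log N / Real.log (1 + (b : ℝ) / (m : ℝ)) → q = ⌈(2 + ε) * l⌉₊ →
  er N m b q (q ^ 2) k s (2 * (b : ℝ) + 3)
    (Real.log (2 * (b : ℝ) + 3) + Real.log ((q : ℝ) + 1) + 2 * Real.log N) ≤
    (q : ℝ) ^ 2 / (k : ℝ) + δ * (q : ℝ) ^ 2

/-- SE1, from CO3, GAM, WTB. Proof: `MakerWins N m b q ∅ ∅` by GAM (it holds for `A N m b` and so for
`q ≤ A N m b`). CO3 with `p = q²`. The sum of all `wt` is `log (gain (ed K) H) / β` (WTB). -/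
def SE1_stmt : Prop := ∀ (N m b q : ℕ) (l : ℝ), 1 ≤ N → 1 ≤ m → 1 ≤ b → 1 ≤ q → q ≤ A N m b →
  l = Real.log N / Real.log (1 + (b : ℝ) / (m : ℝ)) →
  ∃ (H : List (ES N)) (K : Finset (Fin N)), Hist N m H ∧ K.card = q ∧
    (∀ e ∈ ed K, ∃ E ∈ H, e ∈ E) ∧
    ∑ e ∈ ed K, wt b m K H e ≤ (q : ℝ) * l +
      (Real.log ((q : ℝ) + 1) + Real.log (2 * (b : ℝ) + 3)) /
        Real.log (1 + (b : ℝ) / (m : ℝ)) ∧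
    ∀ H₂ H₁, H = H₂ ++ H₁ → H₁ ≠ [] → ∃ X : Finset (Fin N) → ℕ → Finset (Fin N),
      ∀ w, Chain N m b q (q ^ 2) (2 * (b : ℝ) + 3) H₁ X K w →
        w + Real.log (gain b m (ed K) H₂) ≤
          Real.log (2 * (b : ℝ) + 3) + Real.log ((q : ℝ) + 1) + 2 * Real.log N

/-- SET (everything together), from SE1, CAS, LSS, WTA, WTC, ER1, ER2. Proof: let `k = ⌈2/δ⌉₊ + 1`,
`δ' = δ/4` in ER1, ER2. `q = ⌈(2+ε) l⌉₊ ≤ A N m b`. SE1 gives `H`, `K`; `E = ed K`,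
`T_s = (ed K).filter (tch M K s H)`, `T = T_2`, `w = wt b m K H`. LSS for `s`; for `T` its second part. CAS for
`s` and for `2` (`er ≤ δ q²`, `q/2 ≤ δ q²`), `R = log (2b+3) + log (q+1) + 2 log N`, `c = 2b+3`, `p = q²`. -/
def SET_stmt : Prop := ∀ (m b s : ℕ) (ε δ : ℝ), 1 ≤ m → 1 ≤ b → 2 ≤ s → 0 < ε → 0 < δ →
  1 / 2 < aa m b → aa m b ≤ 1 → ∃ N₀ : ℕ, ∀ N ≥ N₀,
  (2 + ε) * (Real.log N / Real.log (1 + (b : ℝ) / (m : ℝ))) < (A N m b : ℝ) →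
  ∃ (q l : ℝ) (E T Ts : Finset (Finset (Fin N))) (w : Finset (Fin N) → ℝ),
    T ⊆ E ∧ Ts ⊆ E ∧ 1 ≤ q ∧ q ≤ δ * q ^ 2 ∧ 0 ≤ l ∧ (2 + ε) * l ≤ q ∧
    (E.card : ℝ) = q * (q - 1) / 2 ∧ (∀ e ∈ E, aa m b ≤ w e ∧ w e ≤ 1) ∧
    ∑ e ∈ E, w e ≤ q * l + δ * q ^ 2 ∧
    ∑ e ∈ E \ Ts, (1 - w e) ≤
      (b : ℝ) * ((s : ℝ) - 1) ^ 2 / (2 * (m : ℝ)) * (T.card : ℝ) + δ * q ^ 2 ∧
    ∑ e ∈ E \ T, (1 - w e) ≤ δ * q ^ 2 ∧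
    (∀ a χ : ℝ, 1 / 2 < a → a ≤ 1 → 0 ≤ χ → 1 - χ ≤ a → χ * (1 + 2 * a) ≤ 1 →
      4 * a * χ ≤ 1 - 1 / (s : ℝ) →
      (∑ e ∈ Ts, (χ - max 0 (w e - a)) + 2 * χ * l ^ 2 - χ * q ^ 2 / 2 ≤
        q * l - ∑ e ∈ E, w e + δ * q ^ 2) ∨
      ((Ts.card : ℝ) * ((1 - 1 / (2 * a)) * (aa m b - 1 / 2)) ≤
        ∑ e ∈ E \ Ts, (1 - w e) + δ * q ^ 2)) ∧
    (∀ a χ : ℝ, 1 / 2 < a → a ≤ 1 → 0 ≤ χ → 1 - χ ≤ a → χ * (1 + 2 * a) ≤ 1 →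
      4 * a * χ ≤ 1 / 2 →
      (∑ e ∈ T, (χ - max 0 (w e - a)) + 2 * χ * l ^ 2 - χ * q ^ 2 / 2 ≤
        q * l - ∑ e ∈ E, w e + δ * q ^ 2) ∨
      ((T.card : ℝ) * ((1 - 1 / (2 * a)) * (aa m b - 1 / 2)) ≤
        ∑ e ∈ E \ T, (1 - w e) + δ * q ^ 2))

/-- RAR (real numbers, case A). Let `ε₂ = ε/(2(2+ε))`, so `q/2 - l ≥ ε₂ q`; `χ = 1 - a < 1/2`. First
alternative: `q l - W = -q(q/2 - l) + q/2 + ST + SU`, so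
`(q/2 - l)(q - 2χ(l + q/2)) ≤ SU + q/2 + δq²`, and the left side is at least `ε₂ (1 - 2χ) q²` (`l ≤ q/2`), the
right side at most `3δq²`. Second: `t ≤ 2δq²/θ`, `θ = (1 - 1/(2a))(a - 1/2) > 0`, and
`ε₂q² - 2δq² ≤ q(q/2 - l) - q/2 - δq² ≤ ST + SU ≤ t + δq²`. -/
def RAR_stmt : Prop := ∀ ε a : ℝ, 0 < ε → 1 / 2 < a → a ≤ 1 → ∃ δ : ℝ, 0 < δ ∧
  ∀ q l W ST SU t : ℝ, 1 ≤ q → q ≤ δ * q ^ 2 → 0 ≤ l → (2 + ε) * l ≤ q →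
  W ≤ q * l + δ * q ^ 2 → SU ≤ δ * q ^ 2 → ST ≤ t → ST + SU = q * (q - 1) / 2 - W →
  ((ST + 2 * (1 - a) * l ^ 2 - (1 - a) * q ^ 2 / 2 ≤ q * l - W + δ * q ^ 2) ∨
    (t * ((1 - 1 / (2 * a)) * (a - 1 / 2)) ≤ SU + δ * q ^ 2)) → False

/-- RBR (real numbers, case B). `ε₂` as in RAR, `χ = 1 - a + ρ ≤ 1/2`. In both cases of the first
alternative `r ts ≤ SU + 2δq²` (first case: `ρ ts + (q/2 - l)(q - 2χ(l + q/2)) ≤ SU + q/2 + δq²` as in RAR,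
and the product is `≥ 0`). So
`ST + SU ≤ (1-a) ts + SU ≤ ((1-a)/r + 1)(λ t2 + δq²) + 2((1-a)/r)δq² ≤ t2/8 + Cδq²`,
`C = 3(1-a)/r + 1`. Last hypothesis, first case:
`t2/8 + (q/2 - l)(q - (l + q/2)/4) ≤ ST + SU + q/2 + δq²`, and the product is at least `(3/4)ε₂q²`: so
`(3/4)ε₂ ≤ (C + 2)δ`. Second case: `t2 ≤ 4δq²/(a - 1/2)`, so `ST + SU ≤ C'δq²`, but
`ST + SU ≥ q(q/2 - l) - q/2 - δq² ≥ (ε₂ - 2δ)q²`. -/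
def RBR_stmt : Prop := ∀ ε a r ρ lam : ℝ, 0 < ε → 1 / 2 < a → a ≤ 1 → 0 < r → r ≤ ρ →
  r ≤ (1 - 1 / (2 * a)) * (a - 1 / 2) → 0 ≤ lam → ((1 - a) / r + 1) * lam ≤ 1 / 8 →
  1 - a + ρ ≤ 1 / 2 → ∃ δ : ℝ, 0 < δ ∧
  ∀ q l W ST SU ts t2 SU2 : ℝ, 1 ≤ q → q ≤ δ * q ^ 2 → 0 ≤ l → (2 + ε) * l ≤ q → 0 ≤ ts →
  0 ≤ t2 → W ≤ q * l + δ * q ^ 2 → ST ≤ (1 - a) * ts → SU ≤ lam * t2 + δ * q ^ 2 →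
  SU2 ≤ δ * q ^ 2 → ST + SU = q * (q - 1) / 2 - W →
  ((ST + ρ * ts + 2 * (1 - a + ρ) * l ^ 2 - (1 - a + ρ) * q ^ 2 / 2 ≤
      q * l - W + δ * q ^ 2) ∨
    (ts * ((1 - 1 / (2 * a)) * (a - 1 / 2)) ≤ SU + δ * q ^ 2)) →
  ((t2 / 8 + l ^ 2 / 4 - q ^ 2 / 16 ≤ q * l - W + δ * q ^ 2) ∨
    (t2 * ((1 - 1 / 2) * (a - 1 / 2)) ≤ SU2 + δ * q ^ 2)) → False

/-- NUA. `aa 2 1 = log 2 / (2 log (3/2)) ≥ 41/48`, as `3^41 ≤ 2^65`; `aa ≤ 1` as `(3/2)² ≥ 2`. The function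
`a(1-a)` is decreasing for `a ≥ 1/2`; `4 (41/48)(7/48) < 1/2`. `(1-a)(1+2a) ≤ (1-a) 3 ≤ 1`. -/
def NUA_stmt : Prop := 1 / 2 < aa 2 1 ∧ aa 2 1 ≤ 1 ∧
  (1 - aa 2 1) * (1 + 2 * aa 2 1) ≤ 1 ∧ 4 * aa 2 1 * (1 - aa 2 1) ≤ 1 / 2

/-- NU1 (`b = 1`). `m log (1 + 1/m) ≤ 1`, so `a = aa m 1 ≥ log 2 ≥ 0.6931`; `a ≤ 1` as `(1 + 1/m)^m ≥ 2`.
With `χ = 1 - a + 13/500`: `4aχ` is decreasing for `a ≥ 0.52`, at `0.6931` it is `< 13/14`; `χ(1 + 2a)` is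
decreasing for `a ≥ 0.3`. `(1 - 1/(2a))(a - 1/2)` is increasing, `≥ 0.05` at `0.6931`.
`((1-a)·500/13 + 1)·169/(2m) ≤ 12.81·169/20000 < 1/8`. -/
def NU1_stmt : Prop := ∀ m : ℕ, 10 ^ 4 ≤ m →
  1 / 2 < aa m 1 ∧ aa m 1 ≤ 1 ∧
  (1 - aa m 1 + 13 / 500) * (1 + 2 * aa m 1) ≤ 1 ∧
  4 * aa m 1 * (1 - aa m 1 + 13 / 500) ≤ 1 - 1 / 14 ∧
  13 / 500 ≤ (1 - 1 / (2 * aa m 1)) * (aa m 1 - 1 / 2) ∧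
  ((1 - aa m 1) / (13 / 500) + 1) * (1 * ((14 : ℝ) - 1) ^ 2 / (2 * (m : ℝ))) ≤ 1 / 8 ∧
  1 - aa m 1 + 13 / 500 ≤ 1 / 2

/-- NU2 (`b = 2`). `m log (1 + 2/m) ≤ 2`, so `a = aa m 2 ≥ log 3 / 2 ≥ 0.5493` (`log 3 ≥ 1.0986`); `a ≤ 1` as
`(1 + 2/m)^m ≥ 3`. With `χ = 1 - a + 1/1000`: `4aχ` is decreasing for `a ≥ 0.51`, at `0.5493` it is
`< 0.995`; `χ(1 + 2a)` is decreasing for `a ≥ 0.3`. `(1 - 1/(2a))(a - 1/2)` is increasing, `≥ 0.004` at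
`0.5493`. `((1-a)·1000 + 1)·39601/m ≤ 452·39601/10^9 < 1/8`. -/
def NU2_stmt : Prop := ∀ m : ℕ, 10 ^ 9 ≤ m →
  1 / 2 < aa m 2 ∧ aa m 2 ≤ 1 ∧
  (1 - aa m 2 + 1 / 1000) * (1 + 2 * aa m 2) ≤ 1 ∧
  4 * aa m 2 * (1 - aa m 2 + 1 / 1000) ≤ 1 - 1 / 200 ∧
  1 / 1000 ≤ (1 - 1 / (2 * aa m 2)) * (aa m 2 - 1 / 2) ∧
  ((1 - aa m 2) / (1 / 1000) + 1) * (2 * ((200 : ℝ) - 1) ^ 2 / (2 * (m : ℝ))) ≤ 1 / 8 ∧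
  1 - aa m 2 + 1 / 1000 ≤ 1 / 2

/-- MNA, from SET (with `s = 2`; `χ - max 0 (w - a) = 1 - w` for `a = aa 2 1 ≤ w`, `χ = 1 - a`), RAR, NUA. -/
def MNA_stmt : Prop := ∀ ε : ℝ, 0 < ε → ∃ N₀ : ℕ, ∀ N ≥ N₀,
  (A N 2 1 : ℝ) ≤ (2 + ε) * (Real.log N / Real.log (3 / 2))

/-- MNG, from SET and RBR. Proof: `W = ∑ w`, `ST = ∑_(Ts) (1 - w) ≤ (1-a)|Ts|`, `SU = ∑_(E \ Ts) (1 - w)`,
`SU2 = ∑_(E \ T) (1 - w)`; `χ - max 0 (w - a) = 1 - w + ρ` for `a = aa m b ≤ w`, `χ = 1 - a + ρ`; for the second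
alternative `a = 1`, `χ = 1/8`: `χ - max 0 (w - 1) = 1/8`. -/
def MNG_stmt : Prop := ∀ (m b s : ℕ) (r ρ : ℝ), 1 ≤ m → 1 ≤ b → 2 ≤ s → 0 < r → r ≤ ρ →
  1 / 2 < aa m b → aa m b ≤ 1 →
  (1 - aa m b + ρ) * (1 + 2 * aa m b) ≤ 1 →
  4 * aa m b * (1 - aa m b + ρ) ≤ 1 - 1 / (s : ℝ) →
  r ≤ (1 - 1 / (2 * aa m b)) * (aa m b - 1 / 2) →
  ((1 - aa m b) / r + 1) * ((b : ℝ) * ((s : ℝ) - 1) ^ 2 / (2 * (m : ℝ))) ≤ 1 / 8 →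
  1 - aa m b + ρ ≤ 1 / 2 → ∀ ε : ℝ, 0 < ε → ∃ N₀ : ℕ, ∀ N ≥ N₀,
  (A N m b : ℝ) ≤ (2 + ε) * (Real.log N / Real.log (1 + (b : ℝ) / (m : ℝ)))

/-- QQL: `QQ N m b = 2 log N / log c - (2/log c) log log N + O(1)`, `c = (m+b)/m`; `b < m`. -/
def QQL_stmt : Prop := ∀ (m b : ℕ) (ε : ℝ), 1 ≤ b → b < m → 0 < ε → ∃ ε' : ℝ, 0 < ε' ∧
  ∃ N₀ : ℕ, ∀ N ≥ N₀,
  (2 + ε') * (Real.log N / Real.log (1 + (b : ℝ) / (m : ℝ))) ≤ (1 + ε) * QQ N m b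

/-- FIN (the theorem), from MNA, MNG, NU1, NU2, QQL. -/
def FIN_stmt : Prop :=
  (∀ ε : ℝ, 0 < ε → ∃ N₀ : ℕ, ∀ N ≥ N₀,
    (A N 2 1 : ℝ) ≤ (1 + ε) * QQ N 2 1 ∧
    (A N 2 1 : ℝ) ≤ (2 + ε) * (Real.log N / Real.log (3 / 2))) ∧
  (∀ m b : ℕ, (b = 1 ∧ 10 ^ 4 ≤ m) ∨ (b = 2 ∧ 10 ^ 9 ≤ m) → ∀ ε : ℝ, 0 < ε →
    ∃ N₀ : ℕ, ∀ N ≥ N₀,
      (A N m b : ℝ) ≤ (1 + ε) * QQ N m b ∧
      (A N m b : ℝ) ≤ (2 + ε) * (Real.log N / Real.log (1 + (b : ℝ) / (m : ℝ))))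

end Pool.Agent.helper42.CQ
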